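import Mathlib

/-!
The coefficients attached to the permutations.
-/

namespace Pool.Agent.H150R2.ZSF

open Finset
open scoped Classical

/-- a legal choice of coefficients -/
def Legal {m : ℕ} (c : Fin 2 ⊕ Fin m → ℤ) : Prop :=
  ∑ i, c i = 0 ∧ (∀ i, c i = 1 ∨ c i = -1 ∨ c i = 2 ∨ c i = -2) ∧
    (∀ i i', c (Sum.inl i) + c (Sum.inl i') ≠ 0) ∧
    (∀ j j', c (Sum.inr j) + c (Sum.inr j') ≠ 0)

theorem Legal.neg {m : ℕ} {c : Fin 2 ⊕ Fin m → ℤ} (h : Legal c) : Legal (fun i => - c i) := by
  obtain ⟨h1, h2, h3, h4⟩ := h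
  refine ⟨?_, ?_, ?_, ?_⟩
  · rw [Finset.sum_neg_distrib, h1, neg_zero]
  · intro i
    show -c i = 1 ∨ -c i = -1 ∨ -c i = 2 ∨ -c i = -2
    rcases h2 i with h | h | h | h <;> rw [h] <;> norm_num
  · intro i i' h
    exact h3 i i' (by linarith)
  · intro i i' h
    exact h4 i i' (by linarith)

theorem legal_of {m : ℕ} (c1 : Fin 2 → ℤ) (Y : Finset (Fin m))
    (h1 : ∀ i, c1 i = 1 ∨ c1 i = -1 ∨ c1 i = 2 ∨ c1 i = -2)
    (h2 : ∀ i i', c1 i + c1 i' ≠ 0)
    (h3 : c1 0 + c1 1 + (m : ℤ) - 3 * (Y.card : ℤ) = 0) :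
    Legal (Sum.elim c1 (fun j => if j ∈ Y then -2 else 1)) := by
  refine ⟨?_, ?_, ?_, ?_⟩
  · rw [Fintype.sum_sum_type]
    simp only [Sum.elim_inl, Sum.elim_inr]
    rw [Fin.sum_univ_two]
    have : ∀ j : Fin m, (if j ∈ Y then (-2 : ℤ) else 1) = 1 - 3 * (if j ∈ Y then 1 else 0) := by
      intro j
      by_cases h : j ∈ Y <;> simp [h]
    rw [Finset.sum_congr rfl (fun j _ => this j), Finset.sum_sub_distrib, ← Finset.mul_sum]
    rw [Finset.sum_ite_mem, Finset.univ_inter, Finset.sum_const, Finset.sum_const]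
    simp only [Finset.card_univ, Fintype.card_fin, nsmul_eq_mul, mul_one]
    linarith
  · rintro (i | j)
    · exact h1 i
    · simp only [Sum.elim_inr]
      by_cases h : j ∈ Y <;> simp [h]
  · intro i i'
    exact h2 i i'
  · intro j j'
    simp only [Sum.elim_inr]
    by_cases h : j ∈ Y <;> by_cases h' : j' ∈ Y <;> simp [h, h']

theorem exists_with {m : ℕ} (j : Fin m) (y : ℕ) (h1 : 1 ≤ y) (h2 : y ≤ m) :
    ∃ Y : Finset (Fin m), Y.card = y ∧ j ∈ Y := by
  obtain ⟨Y, hY1, _, hY3⟩ := Finset.exists_subsuperset_card_eq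
    (Finset.subset_univ ({j} : Finset (Fin m))) (n := y) (by simpa using h1) (by simpa using h2)
  exact ⟨Y, hY3, hY1 (Finset.mem_singleton_self j)⟩

theorem exists_without {m : ℕ} (j : Fin m) (y : ℕ) (h2 : y + 1 ≤ m) :
    ∃ Y : Finset (Fin m), Y.card = y ∧ j ∉ Y := by
  obtain ⟨Y, hY1, hY2⟩ := Finset.exists_subset_card_eq
    (s := (univ.erase j : Finset (Fin m))) (n := y) (by
      rw [Finset.card_erase_of_mem (Finset.mem_univ j), Finset.card_univ, Fintype.card_fin]
      omega)
  exact ⟨Y, hY2, fun h => by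
    have := hY1 h
    simp at this⟩

theorem exists_card {m : ℕ} (y : ℕ) (h2 : y ≤ m) :
    ∃ Y : Finset (Fin m), Y.card = y := by
  obtain ⟨Y, _, hY2⟩ := Finset.exists_subset_card_eq
    (s := (univ : Finset (Fin m))) (n := y) (by simpa using h2)
  exact ⟨Y, hY2⟩

theorem exists_legal_pos {m : ℕ} (hm : 3 ≤ m) (h3 : (m + 2) % 3 ≠ 0) (i0 : Fin 2 ⊕ Fin m)
    (a : ℤ) (ha : a = 1 ∨ a = 2) : ∃ c : Fin 2 ⊕ Fin m → ℤ, Legal c ∧ (c i0 = a ∨ c i0 = -a) := by
  have hmod : m % 3 = 0 ∨ m % 3 = 2 := by omega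
  rcases hmod with hmod | hmod
  · obtain ⟨n, hn⟩ : ∃ n, m = 3 * n := ⟨m / 3, by omega⟩
    rcases i0 with i | j
    · obtain ⟨Y, hY⟩ := exists_card (m := m) (n + 1) (by omega)
      refine ⟨_, legal_of (fun k => if k = i then a else 3 - a) Y ?_ ?_ ?_, ?_⟩
      · intro k
        by_cases h : k = i <;> simp only [h, if_true, if_false] <;> rcases ha with ha | ha <;>
          subst ha <;> norm_num
      · intro k k'
        by_cases h : k = i <;> by_cases h' : k' = i <;> simp only [h, h', if_true, if_false] <;>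
          rcases ha with ha | ha <;> subst ha <;> norm_num
      · rw [hY]
        push_cast
        fin_cases i <;> simp <;> rw [hn] <;> push_cast <;> ring
      · left
        simp
    · rcases ha with ha | ha
      · obtain ⟨Y, hY, hj⟩ := exists_without j (n + 1) (by omega)
        refine ⟨_, legal_of (fun k => if k = 0 then 2 else 1) Y ?_ ?_ ?_, ?_⟩
        · intro k
          by_cases h : k = 0 <;> simp [h]
        · intro k k'
          by_cases h : k = 0 <;> by_cases h' : k' = 0 <;> simp [h, h']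
        · rw [hY, hn]
          push_cast
          ring
        · left
          simp [hj, ha]
      · obtain ⟨Y, hY, hj⟩ := exists_with j (n + 1) (by omega) (by omega)
        refine ⟨_, legal_of (fun k => if k = 0 then 2 else 1) Y ?_ ?_ ?_, ?_⟩
        · intro k
          by_cases h : k = 0 <;> simp [h]
        · intro k k'
          by_cases h : k = 0 <;> by_cases h' : k' = 0 <;> simp [h, h']
        · rw [hY, hn]
          push_cast
          ring
        · right
          simp [hj, ha]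
  · obtain ⟨n, hn⟩ : ∃ n, m = 3 * n + 2 := ⟨m / 3, by omega⟩
    rcases i0 with i | j
    · rcases ha with ha | ha
      · obtain ⟨Y, hY⟩ := exists_card (m := m) n (by omega)
        refine ⟨_, legal_of (fun _ => -1) Y ?_ ?_ ?_, ?_⟩
        · intro k; norm_num
        · intro k k'; norm_num
        · rw [hY, hn]
          push_cast
          ring
        · right
          simp [ha]
      · obtain ⟨Y, hY⟩ := exists_card (m := m) (n + 2) (by omega)
        refine ⟨_, legal_of (fun _ => 2) Y ?_ ?_ ?_, ?_⟩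
        · intro k; norm_num
        · intro k k'; norm_num
        · rw [hY, hn]
          push_cast
          ring
        · left
          simp [ha]
    · rcases ha with ha | ha
      · obtain ⟨Y, hY, hj⟩ := exists_without j n (by omega)
        refine ⟨_, legal_of (fun _ => -1) Y ?_ ?_ ?_, ?_⟩
        · intro k; norm_num
        · intro k k'; norm_num
        · rw [hY, hn]
          push_cast
          ring
        · left
          simp [hj, ha]
      · obtain ⟨Y, hY, hj⟩ := exists_with j n (by omega) (by omega)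
        refine ⟨_, legal_of (fun _ => -1) Y ?_ ?_ ?_, ?_⟩
        · intro k; norm_num
        · intro k k'; norm_num
        · rw [hY, hn]
          push_cast
          ring
        · right
          simp [hj, ha]

theorem exists_legal {m : ℕ} (hm : 3 ≤ m) (h3 : (m + 2) % 3 ≠ 0) (i0 : Fin 2 ⊕ Fin m)
    (a : ℤ) (ha : a = 1 ∨ a = -1 ∨ a = 2 ∨ a = -2) :
    ∃ c : Fin 2 ⊕ Fin m → ℤ, Legal c ∧ c i0 = a := by
  obtain ⟨b, hb, hab⟩ : ∃ b : ℤ, (b = 1 ∨ b = 2) ∧ (a = b ∨ a = -b) := by
    rcases ha with ha | ha | ha | ha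
    · exact ⟨1, Or.inl rfl, Or.inl ha⟩
    · exact ⟨1, Or.inl rfl, Or.inr ha⟩
    · exact ⟨2, Or.inr rfl, Or.inl ha⟩
    · exact ⟨2, Or.inr rfl, Or.inr ha⟩
  obtain ⟨c, hc, hci⟩ := exists_legal_pos hm h3 i0 b hb
  by_cases h : c i0 = a
  · exact ⟨c, hc, h⟩
  · refine ⟨_, hc.neg, ?_⟩
    rcases hab with hab | hab <;> rcases hci with hci | hci
    · exact absurd (hci.trans hab.symm) h
    · simp only [hci, hab, neg_neg]
    · simp only [hci, hab]
    · exact absurd (hci.trans hab.symm) h

end Pool.Agent.H150R2.ZSF
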