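import Pool.Agent.H150R2.Factor
import Pool.Agent.H150R2.Konig
import Pool.Agent.H150R2.Coeff

/-!
The labelling of a bridgeless block with semi-edges.
-/

namespace Pool.Agent.H150R2.ZSF

open Finset SimpleGraph
open scoped Classical

set_option linter.unusedSectionVars false

/-- the labels allowed on a semi-edge (or a bridge) -/
def Lab (t : ℤ) : Prop := t = 2 ∨ t = -2 ∨ t = 4 ∨ t = -4

/-- `x` is minus a sum of `n` legal labels -/
def InA : ℕ → ℤ → Prop
  | 0, x => x = 0
  | n + 1, x => ∃ t, Lab t ∧ InA n (x + t)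

theorem inA_sum {ι : Type*} (s : Finset ι) (g : ι → ℤ) (hg : ∀ i ∈ s, Lab (g i)) :
    InA s.card (-(∑ i ∈ s, g i)) := by
  induction s using Finset.induction_on with
  | empty => simp [InA]
  | insert a s ha ih =>
    rw [Finset.card_insert_of_notMem ha, Finset.sum_insert ha]
    refine ⟨g a, hg a (Finset.mem_insert_self a s), ?_⟩
    have : -(g a + ∑ i ∈ s, g i) + g a = -(∑ i ∈ s, g i) := by ring
    rw [this]
    exact ih (fun i hi => hg i (Finset.mem_insert_of_mem hi))

variable {V : Type*} [Fintype V]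

/-- the degree -/
noncomputable def dg (H : SimpleGraph V) (v : V) : ℕ := (univ.filter (fun w => H.Adj v w)).card

/-- the sum of the labels around a vertex -/
noncomputable def sm (H : SimpleGraph V) (f : Sym2 V → ℤ) (v : V) : ℤ :=
  ∑ w ∈ univ.filter (fun w => H.Adj v w), f s(v, w)

/-- the permutations of a block -/
def Data (H : SimpleGraph V) (m : ℕ) (ρ : Fin 2 ⊕ Fin m → Equiv.Perm V) : Prop :=
  (∀ v w, v ≠ w → ¬ H.Adj v w → ∀ i, ρ i v ≠ w) ∧
  (∀ v w, H.Adj v w →
    (∃ i0 i1 : Fin 2, (∀ i, ρ i v = w ↔ i = Sum.inl i0) ∧ (∀ i, ρ i w = v ↔ i = Sum.inl i1)) ∨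
    (∃ j0 j1 : Fin m, (∀ i, ρ i v = w ↔ i = Sum.inr j0) ∧ (∀ i, ρ i w = v ↔ i = Sum.inr j1))) ∧
  (∀ v, (univ.filter (fun i => ρ i v = v)).card + dg H v = m + 2)

section data

variable (H : SimpleGraph V) (m : ℕ)

abbrev Dart' := {p : V × V // H.Adj p.1 p.2} ⊕ (Σ v : V, Fin (m + 2 - dg H v))

def pr : Dart' H m → V := Sum.elim (fun p => p.1.1) (fun q => q.1)

def rev : Dart' H m → Dart' H m :=
  Sum.elim (fun p => Sum.inl ⟨(p.1.2, p.1.1), p.2.symm⟩) (fun q => Sum.inr q)

theorem card_fiber (P : Dart' H m → Prop) (x : V) :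
    (univ.filter (fun d => pr H m d = x ∧ P d)).card =
      (univ.filter (fun w => ∃ h : H.Adj x w, P (Sum.inl ⟨(x, w), h⟩))).card +
      (univ.filter (fun i : Fin (m + 2 - dg H x) => P (Sum.inr ⟨x, i⟩))).card := by
  rw [Finset.card_filter, Fintype.sum_sum_type, ← Finset.card_filter, ← Finset.card_filter]
  congr 1
  · apply Finset.card_bij (fun p _ => p.1.2)
    · intro p hp
      simp only [Finset.mem_filter, Finset.mem_univ, true_and, pr, Sum.elim_inl] at hp ⊢
      obtain ⟨⟨a, b⟩, hab⟩ := p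
      obtain ⟨h1, h2⟩ := hp
      simp only at h1
      subst h1
      exact ⟨hab, h2⟩
    · rintro ⟨⟨a, b⟩, hab⟩ hp ⟨⟨a', b'⟩, hab'⟩ hp' h
      simp only [Finset.mem_filter, Finset.mem_univ, true_and, pr, Sum.elim_inl] at hp hp' h
      obtain ⟨h1, _⟩ := hp
      obtain ⟨h2, _⟩ := hp'
      subst h1 h2 h
      rfl
    · intro w hw
      simp only [Finset.mem_filter, Finset.mem_univ, true_and] at hw
      obtain ⟨h, hP⟩ := hw
      refine ⟨⟨(x, w), h⟩, ?_, rfl⟩
      simp only [Finset.mem_filter, Finset.mem_univ, true_and, pr, Sum.elim_inl]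
      exact hP
  · symm
    apply Finset.card_bij (fun i _ => ⟨x, i⟩)
    · intro i hi
      simp only [Finset.mem_filter, Finset.mem_univ, true_and, pr, Sum.elim_inr] at hi ⊢
      exact hi
    · intro i _ j _ h
      simpa using h
    · rintro ⟨y, i⟩ hy
      simp only [Finset.mem_filter, Finset.mem_univ, true_and, pr, Sum.elim_inr] at hy
      obtain ⟨h1, h2⟩ := hy
      subst h1
      refine ⟨i, ?_, rfl⟩
      simp only [Finset.mem_filter, Finset.mem_univ, true_and]
      exact h2

theorem exists_F (hm : 3 ≤ m) (hdeg : ∀ v, dg H v ≤ m + 2)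
    (hBL : ∀ A : V → Prop,
      (univ.filter (fun p : V × V => H.Adj p.1 p.2 ∧ A p.1 ∧ ¬ A p.2)).card ≠ 1)
    (x0 : V)
    (hP : ∀ A : V → Prop, (∀ v w, H.Adj v w → A v → A w) →
      (∑ v, if A v then m + 2 - dg H v else 0) = 1 → A x0) :
    ∃ (F : V → V → Prop) (s : V → ℕ), (∀ v w, F v w → H.Adj v w) ∧ (∀ v w, F v w → F w v) ∧
      (∀ v, (univ.filter (fun w => F v w)).card + s v = 2) ∧ (∀ v, s v ≤ m + 2 - dg H v) := by
  obtain ⟨F, hF1, hF2⟩ := exists_factor (pr H m) (rev H m) m
    (by
      rintro (p | q)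
      · rfl
      · rfl) hm
    (by
      intro x
      have h2 := hdeg x
      have h3 : dg H x + (m + 2 - dg H x) = m + 2 := by omega
      refine Eq.trans ?_ (((card_fiber H m (fun _ => True) x).trans ?_).trans h3)
      · congr 1
        ext d
        simp
      · refine congrArg₂ (· + ·) ?_ ?_
        · rw [dg]
          congr 1
          ext w
          simp
        · simp)
    (by
      intro A
      have := hBL A
      intro h
      apply this
      rw [← h]
      symm
      rw [Finset.card_filter (fun d : Dart' H m => _), Fintype.sum_sum_type,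
        ← Finset.card_filter, ← Finset.card_filter]
      have h0 : (univ.filter (fun q : (Σ v : V, Fin (m + 2 - dg H v)) =>
          A (pr H m (Sum.inr q)) ∧ ¬ A (pr H m (rev H m (Sum.inr q))))).card = 0 := by
        rw [Finset.card_eq_zero, Finset.filter_eq_empty_iff]
        rintro q _ ⟨h1, h2⟩
        exact h2 h1
      rw [h0, add_zero]
      apply Finset.card_bij (fun p _ => p.1)
      · rintro ⟨⟨a, b⟩, hab⟩ hp
        simp only [Finset.mem_filter, Finset.mem_univ, true_and, pr, rev, Sum.elim_inl] at hp ⊢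
        exact ⟨hab, hp⟩
      · intro p _ q _ h
        exact Subtype.ext h
      · rintro ⟨a, b⟩ hp
        simp only [Finset.mem_filter, Finset.mem_univ, true_and] at hp
        refine ⟨⟨(a, b), hp.1⟩, ?_, rfl⟩
        simp only [Finset.mem_filter, Finset.mem_univ, true_and, pr, rev, Sum.elim_inl]
        exact hp.2)
    x0
    (by
      intro A hA hcard
      apply hP A
      · intro v w hvw hv
        exact hA (Sum.inl ⟨(v, w), hvw⟩) hv
      · rw [← hcard]
        symm
        rw [Finset.card_filter, Fintype.sum_sum_type]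
        refine (congrArg₂ (· + ·) ?_ ?_).trans (zero_add _)
        · apply Finset.sum_eq_zero
          rintro ⟨⟨a, b⟩, hab⟩ _
          rw [if_neg]
          rintro ⟨h1, _⟩
          simp only [rev, Sum.elim_inl, Sum.inl.injEq, Subtype.mk.injEq, Prod.mk.injEq] at h1
          exact hab.ne h1.2
        rw [Fintype.sum_sigma]
        apply Finset.sum_congr rfl
        intro v _
        by_cases hv : A v
        · have : ∀ i : Fin (m + 2 - dg H v), (rev H m (Sum.inr ⟨v, i⟩) = Sum.inr ⟨v, i⟩ ∧
              A (pr H m (Sum.inr ⟨v, i⟩))) := by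
            intro i
            exact ⟨rfl, hv⟩
          simp only [this, and_self, if_true, hv]
          simp
        · have : ∀ i : Fin (m + 2 - dg H v), ¬ (rev H m (Sum.inr ⟨v, i⟩) = Sum.inr ⟨v, i⟩ ∧
              A (pr H m (Sum.inr ⟨v, i⟩))) := by
            rintro i ⟨_, h⟩
            exact hv h
          simp only [this, if_false, hv]
          simp)
  refine ⟨fun v w => ∃ h : H.Adj v w, F (Sum.inl ⟨(v, w), h⟩),
    fun v => (univ.filter (fun i : Fin (m + 2 - dg H v) => F (Sum.inr ⟨v, i⟩))).card,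
    ?_, ?_, ?_, ?_⟩
  · rintro v w ⟨h, _⟩
    exact h
  · rintro v w ⟨h, hF⟩
    exact ⟨h.symm, hF1 _ hF⟩
  · intro v
    have h := (card_fiber H m F v).symm.trans (hF2 v)
    beta_reduce
    convert h
  · intro v
    exact le_trans (Finset.card_filter_le _ _) (by simp)

end data

end Pool.Agent.H150R2.ZSF
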