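import Pool.Agent.H150R2.Label

/-!
Induction over bridges.
-/

namespace Pool.Agent.H150R2.ZSF

open Finset SimpleGraph
open scoped Classical

set_option linter.unusedSectionVars false

variable {V : Type*} [Fintype V]

/-- the labels are legal on the edges of `H` -/
def Ok (H : SimpleGraph V) (f : Sym2 V → ℤ) : Prop :=
  ∀ v w, H.Adj v w → f s(v, w) ≠ 0 ∧ |f s(v, w)| < 5

theorem lab_ok {t : ℤ} (h : Lab t) : t ≠ 0 ∧ |t| < 5 := by
  rcases h with h | h | h | h <;> subst h <;> decide

theorem sm_congr (H : SimpleGraph V) (f g : Sym2 V → ℤ) (v : V)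
    (h : ∀ w, H.Adj v w → f s(v, w) = g s(v, w)) : sm H f v = sm H g v := by
  apply Finset.sum_congr rfl
  intro w hw
  simp only [Finset.mem_filter, Finset.mem_univ, true_and] at hw
  exact h w hw

section del

variable (H : SimpleGraph V) (u w : V)

theorem del_adj (a b : V) : (H.deleteEdges {s(u, w)}).Adj a b ↔ H.Adj a b ∧ s(a, b) ≠ s(u, w) := by
  rw [SimpleGraph.deleteEdges_adj]
  simp

theorem dg_del_of_ne (v : V) (h1 : v ≠ u) (h2 : v ≠ w) :
    dg (H.deleteEdges {s(u, w)}) v = dg H v := by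
  rw [dg, dg]
  congr 1
  ext x
  simp only [Finset.mem_filter, Finset.mem_univ, true_and, del_adj]
  constructor
  · exact fun h => h.1
  · intro h
    refine ⟨h, fun h' => ?_⟩
    rw [Sym2.eq_iff] at h'
    rcases h' with h' | h'
    · exact h1 h'.1
    · exact h2 h'.1

theorem sm_del_of_ne (f : Sym2 V → ℤ) (v : V) (h1 : v ≠ u) (h2 : v ≠ w) :
    sm H f v = sm (H.deleteEdges {s(u, w)}) f v := by
  rw [sm, sm]
  congr 1
  ext x
  simp only [Finset.mem_filter, Finset.mem_univ, true_and, del_adj]
  constructor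
  · intro h
    refine ⟨h, fun h' => ?_⟩
    rw [Sym2.eq_iff] at h'
    rcases h' with h' | h'
    · exact h1 h'.1
    · exact h2 h'.1
  · exact fun h => h.1

theorem nb_left (h : H.Adj u w) :
    univ.filter (fun x => H.Adj u x) =
      insert w (univ.filter (fun x => (H.deleteEdges {s(u, w)}).Adj u x)) := by
  ext x
  simp only [Finset.mem_filter, Finset.mem_univ, true_and, del_adj, Finset.mem_insert]
  constructor
  · intro hx
    by_cases hxw : x = w
    · exact Or.inl hxw
    · right
      refine ⟨hx, fun h' => ?_⟩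
      rw [Sym2.eq_iff] at h'
      rcases h' with h' | h'
      · exact hxw h'.2
      · exact h.ne h'.1
  · rintro (hx | hx)
    · rw [hx]; exact h
    · exact hx.1

theorem nb_left_notMem : w ∉ univ.filter (fun x => (H.deleteEdges {s(u, w)}).Adj u x) := by
  simp only [Finset.mem_filter, Finset.mem_univ, true_and, del_adj, not_and, not_not]
  intro _
  trivial

theorem dg_del_left (h : H.Adj u w) : dg H u = dg (H.deleteEdges {s(u, w)}) u + 1 := by
  rw [dg, nb_left H u w h, Finset.card_insert_of_notMem (nb_left_notMem H u w), dg]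
  congr!

theorem sm_del_left (h : H.Adj u w) (f : Sym2 V → ℤ) :
    sm H f u = sm (H.deleteEdges {s(u, w)}) f u + f s(u, w) := by
  rw [sm, nb_left H u w h, Finset.sum_insert (nb_left_notMem H u w), sm, add_comm]
  congr!

theorem del_swap : H.deleteEdges {s(u, w)} = H.deleteEdges {s(w, u)} := by
  rw [Sym2.eq_swap]

theorem dg_del_right (h : H.Adj u w) : dg H w = dg (H.deleteEdges {s(u, w)}) w + 1 := by
  rw [del_swap]
  exact dg_del_left H w u h.symm

theorem sm_del_right (h : H.Adj u w) (f : Sym2 V → ℤ) :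
    sm H f w = sm (H.deleteEdges {s(u, w)}) f w + f s(u, w) := by
  have e : s(w, u) = s(u, w) := Sym2.eq_swap
  have := sm_del_left H w u h.symm f
  rw [e] at this
  exact this

/-- gluing along a bridge -/
theorem glue (h : H.Adj u w) (hbr : ¬ (H.deleteEdges {s(u, w)}).Reachable u w)
    (t : ℤ) (ht : Lab t) (f1 f2 : Sym2 V → ℤ) (hf1 : Ok (H.deleteEdges {s(u, w)}) f1)
    (hf2 : Ok (H.deleteEdges {s(u, w)}) f2) :
    ∃ f : Sym2 V → ℤ, Ok H f ∧ sm H f u = sm (H.deleteEdges {s(u, w)}) f1 u + t ∧
      sm H f w = sm (H.deleteEdges {s(u, w)}) f2 w + t ∧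
      (∀ v, v ≠ u → v ≠ w → (H.deleteEdges {s(u, w)}).Reachable u v →
        sm H f v = sm (H.deleteEdges {s(u, w)}) f1 v) ∧
      (∀ v, v ≠ u → v ≠ w → ¬ (H.deleteEdges {s(u, w)}).Reachable u v →
        sm H f v = sm (H.deleteEdges {s(u, w)}) f2 v) := by
  set H' := H.deleteEdges {s(u, w)} with hH'
  set f : Sym2 V → ℤ := fun e => if e = s(u, w) then t else
    if (∃ a ∈ e, H'.Reachable u a) then f1 e else f2 e with hf
  have key1 : ∀ v x, H'.Adj v x → H'.Reachable u v → f s(v, x) = f1 s(v, x) := by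
    intro v x hvx hv
    have h1 := (del_adj H u w v x).mp hvx
    rw [hf]
    beta_reduce
    rw [if_neg h1.2, if_pos ⟨v, Sym2.mem_mk_left v x, hv⟩]
  have key2 : ∀ v x, H'.Adj v x → ¬ H'.Reachable u v → f s(v, x) = f2 s(v, x) := by
    intro v x hvx hv
    have h1 := (del_adj H u w v x).mp hvx
    rw [hf]
    beta_reduce
    rw [if_neg h1.2, if_neg]
    rintro ⟨a, ha, hua⟩
    rw [Sym2.mem_iff] at ha
    rcases ha with ha | ha
    · rw [ha] at hua; exact hv hua
    · rw [ha] at hua; exact hv (hua.trans hvx.symm.reachable)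
  have keyt : f s(u, w) = t := by
    rw [hf]
    beta_reduce
    rw [if_pos rfl]
  refine ⟨f, ?_, ?_, ?_, ?_, ?_⟩
  · intro v x hvx
    by_cases he : s(v, x) = s(u, w)
    · rw [he, keyt]
      exact lab_ok ht
    · have hvx' : H'.Adj v x := (del_adj H u w v x).mpr ⟨hvx, he⟩
      by_cases hv : H'.Reachable u v
      · rw [key1 v x hvx' hv]
        exact hf1 v x hvx'
      · rw [key2 v x hvx' hv]
        exact hf2 v x hvx'
  · rw [sm_del_left H u w h f, keyt]
    congr 1
    exact sm_congr _ _ _ _ (fun x hx => key1 u x hx (Reachable.refl u))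
  · rw [sm_del_right H u w h f, keyt]
    congr 1
    exact sm_congr _ _ _ _ (fun x hx => key2 w x hx hbr)
  · intro v hvu hvw hv
    rw [sm_del_of_ne H u w f v hvu hvw]
    exact sm_congr _ _ _ _ (fun x hx => key1 v x hx hv)
  · intro v hvu hvw hv
    rw [sm_del_of_ne H u w f v hvu hvw]
    exact sm_congr _ _ _ _ (fun x hx => key2 v x hx hv)

/-- the sides of a bridge -/
theorem reach_side (v0 v : V) (h : H.Reachable v0 v) :
    (H.deleteEdges {s(u, w)}).Reachable v0 v ∨ (H.deleteEdges {s(u, w)}).Reachable v0 u ∨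
      (H.deleteEdges {s(u, w)}).Reachable v0 w := by
  obtain ⟨p⟩ := h
  induction p with
  | nil => exact Or.inl (Reachable.refl _)
  | @cons a b c hab _ ih =>
    by_cases he : s(a, b) = s(u, w)
    · rw [Sym2.eq_iff] at he
      rcases he with he | he
      · right; left; rw [he.1]
      · right; right; rw [he.1]
    · have hab' : (H.deleteEdges {s(u, w)}).Adj a b := (del_adj H u w a b).mpr ⟨hab, he⟩
      rcases ih with ih | ih | ih
      · exact Or.inl (hab'.reachable.trans ih)
      · exact Or.inr (Or.inl (hab'.reachable.trans ih))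
      · exact Or.inr (Or.inr (hab'.reachable.trans ih))

theorem reach_side' (v0 v : V) (h : H.Reachable v0 v)
    (hu : (H.deleteEdges {s(u, w)}).Reachable v0 u) :
    (H.deleteEdges {s(u, w)}).Reachable v0 v ∨ (H.deleteEdges {s(u, w)}).Reachable w v := by
  rcases reach_side H u w v v0 h.symm with h1 | h1 | h1
  · exact Or.inl h1.symm
  · exact Or.inl (hu.trans h1.symm)
  · exact Or.inr h1.symm

end del

/-- the bridgeless case -/
theorem comp_noBridge (H : SimpleGraph V) (m : ℕ) (v0 : V) (hm : 3 ≤ m)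
    (hno : ∀ u w, H.Adj u w → H.Reachable v0 u → (H.deleteEdges {s(u, w)}).Reachable u w) :
    ∃ H' : SimpleGraph V, (∀ v, H.Reachable v0 v → (∀ x, H'.Adj v x ↔ H.Adj v x)) ∧
      (∀ v, ¬ H.Reachable v0 v → (∀ x, ¬ H'.Adj v x)) ∧
      (∀ A : V → Prop,
      (univ.filter (fun p : V × V => H'.Adj p.1 p.2 ∧ A p.1 ∧ ¬ A p.2)).card ≠ 1) ∧
      (∀ A : V → Prop, (∀ v w, H'.Adj v w → A v → A w) →
      (∑ v, if A v then m + 2 - dg H' v else 0) = 1 → A v0) := by
  obtain ⟨H', hH'⟩ : ∃ H' : SimpleGraph V, ∀ a b, H'.Adj a b ↔ H.Adj a b ∧ H.Reachable v0 a :=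
    ⟨{ Adj := fun a b => H.Adj a b ∧ H.Reachable v0 a
       symm := ⟨fun a b h => ⟨h.1.symm, h.2.trans h.1.reachable⟩⟩
       loopless := ⟨fun a h => h.1.ne rfl⟩ }, fun a b => Iff.rfl⟩
  refine ⟨H', ?_, ?_, ?_, ?_⟩
  · intro v hv x
    rw [hH']
    exact ⟨fun h => h.1, fun h => ⟨h, hv⟩⟩
  · intro v hv x hx
    exact hv ((hH' v x).mp hx).2
  · intro A hA
    obtain ⟨⟨u, w⟩, huw⟩ := Finset.card_eq_one.mp hA
    have hmem : ∀ a b, (H'.Adj a b ∧ A a ∧ ¬ A b) ↔ (a = u ∧ b = w) := by
      intro a b
      have := Finset.ext_iff.mp huw (a, b)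
      simpa using this
    obtain ⟨hadj, hu, hw⟩ := (hmem u w).mpr ⟨rfl, rfl⟩
    have hadj := (hH' u w).mp hadj
    have hr := hno u w hadj.1 hadj.2
    have claim : ∀ a b, (H.deleteEdges {s(u, w)}).Walk a b → H.Reachable v0 a → A a → A b := by
      intro a b p
      induction p with
      | nil => exact fun _ h => h
      | @cons a b c hab _ ih =>
        intro hva ha
        have h1 := (del_adj H u w a b).mp hab
        have hb : A b := by
          by_contra hb
          have := (hmem a b).mp ⟨(hH' a b).mpr ⟨h1.1, hva⟩, ha, hb⟩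
          exact h1.2 (by rw [this.1, this.2])
        exact ih (hva.trans h1.1.reachable) hb
    obtain ⟨p⟩ := hr
    exact hw (claim u w p hadj.2 hu)
  · intro A hA hsum
    have hnot : ∀ v, A v → H.Reachable v0 v := by
      intro v hv
      by_contra hr
      have hd : dg H' v = 0 := by
        rw [dg, Finset.card_eq_zero, Finset.filter_eq_empty_iff]
        intro x _ hx
        exact hr ((hH' v x).mp hx).2
      have : (if A v then m + 2 - dg H' v else 0) ≤ ∑ v, if A v then m + 2 - dg H' v else 0 :=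
        Finset.single_le_sum (f := fun v => if A v then m + 2 - dg H' v else 0)
          (fun _ _ => Nat.zero_le _) (Finset.mem_univ v)
      rw [if_pos hv, hd, hsum] at this
      omega
    have hex : ∃ v, A v := by
      by_contra hne
      have : (∑ v, if A v then m + 2 - dg H' v else 0) = 0 := by
        apply Finset.sum_eq_zero
        intro v _
        rw [if_neg (fun h => hne ⟨v, h⟩)]
      omega
    obtain ⟨v, hv⟩ := hex
    have claim : ∀ a b, H.Walk a b → H.Reachable v0 a → A a → A b := by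
      intro a b p
      induction p with
      | nil => exact fun _ h => h
      | @cons a b c hab _ ih =>
        intro hva ha
        exact ih (hva.trans hab.reachable) (hA a b ((hH' a b).mpr ⟨hab, hva⟩) ha)
    obtain ⟨p⟩ := (hnot v hv).symm
    exact claim v v0 p (hnot v hv) hv

/-- transferring a labelling of the component of `v0` -/
theorem transfer (H H' : SimpleGraph V) (v0 : V)
    (h1 : ∀ v, H.Reachable v0 v → (∀ x, H'.Adj v x ↔ H.Adj v x))
    (f : Sym2 V → ℤ) (hf : Ok H' f) :
    ∃ g : Sym2 V → ℤ, Ok H g ∧ ∀ v, H.Reachable v0 v → sm H g v = sm H' f v ∧ dg H v = dg H' v := by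
  refine ⟨fun e => if (∃ a ∈ e, H.Reachable v0 a) then f e else 1, ?_, ?_⟩
  · intro v w hvw
    beta_reduce
    by_cases hv : H.Reachable v0 v
    · rw [if_pos ⟨v, Sym2.mem_mk_left v w, hv⟩]
      exact hf v w ((h1 v hv w).mpr hvw)
    · rw [if_neg]
      · norm_num
      · rintro ⟨a, ha, hua⟩
        rw [Sym2.mem_iff] at ha
        rcases ha with ha | ha
        · rw [ha] at hua; exact hv hua
        · rw [ha] at hua; exact hv (hua.trans hvw.symm.reachable)
  · intro v hv
    constructor
    · rw [sm, sm]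
      refine Finset.sum_congr ?_ ?_
      · ext x
        simp only [Finset.mem_filter, Finset.mem_univ, true_and, h1 v hv x]
      · intro x _
        rw [if_pos ⟨v, Sym2.mem_mk_left v x, hv⟩]
    · rw [dg, dg]
      congr 1
      ext x
      simp only [Finset.mem_filter, Finset.mem_univ, true_and, h1 v hv x]

end Pool.Agent.H150R2.ZSF
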