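import Pool.Agent.H150R2.Base

/-!
Existence of the permutations of a block.
-/

namespace Pool.Agent.H150R2.ZSF

open Finset SimpleGraph
open scoped Classical

set_option linter.unusedSectionVars false

theorem uniq_of {n : ℕ} {P : Fin n → Prop} (h : (1 : ℕ) = ∑ i, if P i then 1 else 0) :
    ∃ i0, ∀ i, P i ↔ i = i0 := by
  rw [← Finset.card_filter] at h
  obtain ⟨a, ha⟩ := Finset.card_eq_one.mp h.symm
  refine ⟨a, fun i => ?_⟩
  have := Finset.ext_iff.mp ha i
  simpa using this

theorem none_of {n : ℕ} {P : Fin n → Prop} (h : (0 : ℕ) = ∑ i, if P i then 1 else 0) :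
    ∀ i, ¬ P i := by
  rw [← Finset.card_filter] at h
  have h2 := Finset.card_eq_zero.mp h.symm
  intro i hi
  have := Finset.ext_iff.mp h2 i
  simp only [Finset.mem_filter, Finset.mem_univ, true_and] at this
  exact absurd (this.mp hi) (Finset.notMem_empty i)

variable {V : Type*} [Fintype V] (H : SimpleGraph V) (m : ℕ)

theorem exists_data (hm : 3 ≤ m) (hdeg : ∀ v, dg H v ≤ m + 2)
    (hBL : ∀ A : V → Prop,
      (univ.filter (fun p : V × V => H.Adj p.1 p.2 ∧ A p.1 ∧ ¬ A p.2)).card ≠ 1)
    (x0 : V)
    (hP : ∀ A : V → Prop, (∀ v w, H.Adj v w → A v → A w) →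
      (∑ v, if A v then m + 2 - dg H v else 0) = 1 → A x0) :
    ∃ ρ : Fin 2 ⊕ Fin m → Equiv.Perm V, Data H m ρ := by
  obtain ⟨F, s, hF1, hF2, hF3, hs⟩ := exists_F H m hm hdeg hBL x0 hP
  have hF2' : ∀ v w, F v w ↔ F w v := fun v w => ⟨hF2 v w, hF2 w v⟩
  have hsplit : ∀ v, (univ.filter (fun w => H.Adj v w ∧ ¬ F v w)).card +
      (univ.filter (fun w => F v w)).card = dg H v := by
    intro v
    rw [dg, ← Finset.card_union_of_disjoint]
    · congr 1
      ext w
      simp only [Finset.mem_union, Finset.mem_filter, Finset.mem_univ, true_and]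
      constructor
      · rintro (h | h)
        · exact h.1
        · exact hF1 v w h
      · intro h
        by_cases h' : F v w
        · exact Or.inr h'
        · exact Or.inl ⟨h, h'⟩
    · rw [Finset.disjoint_left]
      intro w h1 h2
      simp only [Finset.mem_filter, Finset.mem_univ, true_and] at h1 h2
      exact h1.2 h2
  have rowS : ∀ v, ∑ w, ((if F v w then 1 else 0) + (if v = w then s v else 0)) = 2 := by
    intro v
    rw [Finset.sum_add_distrib, ← Finset.card_filter, Finset.sum_ite_eq, if_pos (Finset.mem_univ v)]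
    exact hF3 v
  have rowB : ∀ v, ∑ w, ((if H.Adj v w ∧ ¬ F v w then 1 else 0) +
      (if v = w then m + 2 - dg H v - s v else 0)) = m := by
    intro v
    rw [Finset.sum_add_distrib, ← Finset.card_filter, Finset.sum_ite_eq, if_pos (Finset.mem_univ v)]
    have h1 := hsplit v
    have h2 := hF3 v
    have h3 := hs v
    have h4 := hdeg v
    omega
  have symS : ∀ v w, ((if F v w then 1 else 0) + (if v = w then s v else 0)) =
      ((if F w v then 1 else 0) + (if w = v then s w else 0)) := by
    intro v w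
    refine congrArg₂ (· + ·) ?_ ?_
    · simp only [hF2' v w]
    · by_cases h : v = w
      · subst h; rfl
      · rw [if_neg h, if_neg (Ne.symm h)]
  have symB : ∀ v w, ((if H.Adj v w ∧ ¬ F v w then 1 else 0) +
      (if v = w then m + 2 - dg H v - s v else 0)) =
      ((if H.Adj w v ∧ ¬ F w v then 1 else 0) +
      (if w = v then m + 2 - dg H w - s w else 0)) := by
    intro v w
    refine congrArg₂ (· + ·) ?_ ?_
    · simp only [hF2' v w, H.adj_comm v w]
    · by_cases h : v = w
      · subst h; rfl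
      · rw [if_neg h, if_neg (Ne.symm h)]
  obtain ⟨σ, hσ⟩ := koenig 2 (fun v w => (if F v w then 1 else 0) + (if v = w then s v else 0))
    rowS (fun w => (Finset.sum_congr rfl (fun v _ => symS v w)).trans (rowS w))
  obtain ⟨τ, hτ⟩ := koenig m (fun v w => (if H.Adj v w ∧ ¬ F v w then 1 else 0) +
      (if v = w then m + 2 - dg H v - s v else 0))
    rowB (fun w => (Finset.sum_congr rfl (fun v _ => symB v w)).trans (rowB w))
  have S1 : ∀ v w, v ≠ w → F v w → ∃ i0, ∀ i, σ i v = w ↔ i = i0 := by
    intro v w hvw h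
    apply uniq_of
    rw [← hσ v w]
    simp [h, hvw]
  have S0 : ∀ v w, v ≠ w → ¬ F v w → ∀ i, ¬ (σ i v = w) := by
    intro v w hvw h
    apply none_of
    rw [← hσ v w]
    simp [h, hvw]
  have T1 : ∀ v w, v ≠ w → H.Adj v w → ¬ F v w → ∃ i0, ∀ i, τ i v = w ↔ i = i0 := by
    intro v w hvw h h'
    apply uniq_of
    rw [← hτ v w]
    simp [h, h', hvw]
  have T0 : ∀ v w, v ≠ w → ¬ (H.Adj v w ∧ ¬ F v w) → ∀ i, ¬ (τ i v = w) := by
    intro v w hvw h
    apply none_of
    rw [← hτ v w]
    rw [if_neg h, if_neg hvw]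
  refine ⟨Sum.elim σ τ, ?_, ?_, ?_⟩
  · intro v w hvw hadj i
    rcases i with i | j
    · exact S0 v w hvw (fun h => hadj (hF1 v w h)) i
    · exact T0 v w hvw (fun h => hadj h.1) j
  · intro v w hadj
    by_cases hF : F v w
    · left
      obtain ⟨i0, hi0⟩ := S1 v w hadj.ne hF
      obtain ⟨i1, hi1⟩ := S1 w v hadj.ne.symm (hF2 v w hF)
      refine ⟨i0, i1, ?_, ?_⟩
      · rintro (i | j)
        · simp only [Sum.elim_inl, Sum.inl.injEq]
          exact hi0 i
        · simp only [Sum.elim_inr, reduceCtorEq, iff_false]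
          exact T0 v w hadj.ne (fun h => h.2 hF) j
      · rintro (i | j)
        · simp only [Sum.elim_inl, Sum.inl.injEq]
          exact hi1 i
        · simp only [Sum.elim_inr, reduceCtorEq, iff_false]
          exact T0 w v hadj.ne.symm (fun h => h.2 (hF2 v w hF)) j
    · right
      have hF' : ¬ F w v := fun h => hF (hF2 w v h)
      obtain ⟨i0, hi0⟩ := T1 v w hadj.ne hadj hF
      obtain ⟨i1, hi1⟩ := T1 w v hadj.ne.symm hadj.symm hF'
      refine ⟨i0, i1, ?_, ?_⟩
      · rintro (i | j)
        · simp only [Sum.elim_inl, reduceCtorEq, iff_false]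
          exact S0 v w hadj.ne hF i
        · simp only [Sum.elim_inr, Sum.inr.injEq]
          exact hi0 j
      · rintro (i | j)
        · simp only [Sum.elim_inl, reduceCtorEq, iff_false]
          exact S0 w v hadj.ne.symm hF' i
        · simp only [Sum.elim_inr, Sum.inr.injEq]
          exact hi1 j
  · intro v
    have h1 := hσ v v
    have h2 := hτ v v
    have hFv : ¬ F v v := fun h => (hF1 v v h).ne rfl
    have hAv : ¬ H.Adj v v := fun h => h.ne rfl
    simp only [hFv, hAv, if_false, if_true, false_and, zero_add] at h1 h2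
    have h3 : (univ.filter (fun i : Fin 2 ⊕ Fin m => (Sum.elim σ τ) i v = v)).card =
        (∑ i, if σ i v = v then 1 else 0) + (∑ i, if τ i v = v then 1 else 0) := by
      rw [Finset.card_filter, Fintype.sum_sum_type]
      rfl
    rw [h3, ← h1, ← h2]
    have h4 := hs v
    have h5 := hdeg v
    omega

end Pool.Agent.H150R2.ZSF
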