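import Pool.Agent.H150R2.WTutte

/-!
Existence of a 2-factor in a bridgeless `r`-regular dart structure with semi-edges (`r ≥ 5`).

`D` is the set of darts, `π d` the vertex of the dart `d`, `ι` the reversal of darts; a fixed
point of `ι` is a semi-edge.
-/

namespace Pool.Agent.H150R2.ZSF

open Finset SimpleGraph
open scoped Classical

set_option linter.unusedSectionVars false

section

variable {X D : Type*} [Fintype X] [Fintype D] (π : D → X) (ι : D → D) (m : ℕ)

/-- the gadget graph -/
def gad : SimpleGraph (D ⊕ (X × Fin m)) where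
  Adj a b := match a, b with
    | .inl d, .inl d' => d ≠ d' ∧ ((ι d = d' ∧ ι d' = d) ∨ (ι d = d ∧ ι d' = d'))
    | .inl d, .inr p => π d = p.1
    | .inr p, .inl d => π d = p.1
    | .inr _, .inr _ => False
  symm := ⟨by
    rintro (a | a) (b | b) h
    · refine ⟨h.1.symm, ?_⟩
      rcases h.2 with h | h
      · exact Or.inl ⟨h.2, h.1⟩
      · exact Or.inr ⟨h.2, h.1⟩
    · exact h
    · exact h
    · exact h⟩
  loopless := ⟨by
    rintro (a | a) h
    · exact h.1 rfl
    · exact h⟩

/-- the weights -/
noncomputable def wt : D ⊕ (X × Fin m) → D ⊕ (X × Fin m) → ℕ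
  | .inl d, .inl d' => if d ≠ d' ∧ ι d = d' ∧ ι d' = d then 2 else 0
  | .inl d, .inr p => if π d = p.1 then 1 else 0
  | .inr p, .inl d => if π d = p.1 then 1 else 0
  | .inr _, .inr _ => 0

theorem wt_symm (a b : D ⊕ (X × Fin m)) : wt π ι m a b = wt π ι m b a := by
  rcases a with a | a <;> rcases b with b | b <;> simp only [wt]
  congr 1
  apply propext
  constructor
  · rintro ⟨h1, h2, h3⟩; exact ⟨h1.symm, h3, h2⟩
  · rintro ⟨h1, h2, h3⟩; exact ⟨h1.symm, h3, h2⟩

theorem wt_adj (a b : D ⊕ (X × Fin m)) (h : wt π ι m a b ≠ 0) : (gad π ι m).Adj a b := by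
  rcases a with a | a <;> rcases b with b | b <;> simp only [wt] at h
  · have : a ≠ b ∧ ι a = b ∧ ι b = a := by
      by_contra h'
      rw [if_neg h'] at h
      exact h rfl
    exact ⟨this.1, Or.inl this.2⟩
  · have : π a = b.1 := by
      by_contra h'
      rw [if_neg h'] at h
      exact h rfl
    exact this
  · have : π b = a.1 := by
      by_contra h'
      rw [if_neg h'] at h
      exact h rfl
    exact this
  · exact absurd rfl h

theorem wt_deg (hcard : ∀ x, (univ.filter (fun d => π d = x)).card = m + 2)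
    (a : D ⊕ (X × Fin m)) : ∑ b, wt π ι m a b ≤ m + 2 := by
  rw [Fintype.sum_sum_type]
  rcases a with a | a <;> simp only [wt]
  · have h1 : ∑ d', (if a ≠ d' ∧ ι a = d' ∧ ι d' = a then 2 else 0) ≤ 2 := by
      apply sum_ite_le_two
      intro b _ c _ hb hc
      rw [← hb.2.1, ← hc.2.1]
    have h2 : ∑ p : X × Fin m, (if π a = p.1 then 1 else 0) = m := by
      rw [Fintype.sum_prod_type]
      have h3 : ∀ x, ∑ i : Fin m, (if π a = (x, i).1 then 1 else 0) = if π a = x then m else 0 := by
        intro x
        by_cases h : π a = x <;> simp [h]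
      rw [Finset.sum_congr rfl (fun x _ => h3 x), Finset.sum_ite_eq]
      simp
    omega
  · have h1 : ∑ d, (if π d = a.1 then 1 else 0) = m + 2 := by
      rw [← hcard a.1, Finset.card_filter]
    rw [h1]
    simp

variable (C E : Finset (D ⊕ (X × Fin m)))

noncomputable def aX (x : X) : ℕ := (univ.filter (fun d => π d = x ∧ Sum.inl d ∈ C)).card
noncomputable def bX (x : X) : ℕ := (univ.filter (fun d => π d = x ∧ Sum.inl d ∉ C)).card
noncomputable def iX (x : X) : ℕ := (univ.filter (fun i : Fin m => Sum.inr (x, i) ∈ C)).card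
noncomputable def jX (x : X) : ℕ := (univ.filter (fun i : Fin m => Sum.inr (x, i) ∉ C)).card
noncomputable def kX : ℕ := (univ.filter (fun d => Sum.inl d ∈ C ∧ Sum.inl (ι d) ∉ C)).card

theorem ab_eq (hcard : ∀ x, (univ.filter (fun d => π d = x)).card = m + 2) (x : X) :
    aX π m C x + bX π m C x = m + 2 := by
  rw [← hcard x, aX, bX, ← Finset.filter_filter, ← Finset.filter_filter]
  exact Finset.card_filter_add_card_filter_not _

theorem ij_eq (x : X) : iX m C x + jX m C x = m := by
  rw [iX, jX]
  have := Finset.card_filter_add_card_filter_not (s := (univ : Finset (Fin m)))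
    (fun i : Fin m => (Sum.inr (x, i) : D ⊕ (X × Fin m)) ∈ C)
  rw [Finset.card_univ, Fintype.card_fin] at this
  exact this

theorem card_eq : C.card = ∑ x, (aX π m C x + iX m C x) := by
  have h1 : C.card = ∑ a : D ⊕ (X × Fin m), if a ∈ C then 1 else 0 := by
    rw [Finset.sum_boole]; simp
  rw [h1, Fintype.sum_sum_type, Fintype.sum_prod_type, Finset.sum_add_distrib]
  congr 1
  · simp only [aX, Finset.card_filter]
    rw [Finset.sum_comm]
    apply Finset.sum_congr rfl
    intro d _
    have : ∀ x, (if π d = x ∧ Sum.inl d ∈ C then 1 else 0) =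
        (if π d = x then (if Sum.inl d ∈ C then 1 else 0) else 0) := by
      intro x
      by_cases h : π d = x <;> simp [h]
    simp only [this, Finset.sum_ite_eq, Finset.mem_univ, if_true]
  · apply Finset.sum_congr rfl
    intro x _
    simp only [iX, Finset.card_filter]

theorem cut_eq (hι : ∀ d, ι (ι d) = d) (hE : ∀ a, a ∈ E ↔ a ∉ C) :
    ∑ a ∈ C, ∑ b ∈ E, wt π ι m a b =
      (∑ x, (aX π m C x * jX m C x + bX π m C x * iX m C x)) + 2 * kX ι m C := by
  have hE' : E = univ.filter (fun a => a ∉ C) := by
    ext a; simp [hE]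
  have hC' : C = univ.filter (fun a => a ∈ C) := by
    ext a; simp
  have h0 : ∑ a ∈ C, ∑ b ∈ E, wt π ι m a b =
      ∑ a, ∑ b, (if a ∈ C then (if b ∉ C then wt π ι m a b else 0) else 0) := by
    conv_lhs => rw [hC']
    rw [Finset.sum_filter]
    apply Finset.sum_congr rfl
    intro a _
    by_cases ha : a ∈ C
    · simp only [ha, if_true]
      rw [hE', Finset.sum_filter]
    · simp [ha]
  rw [h0, Fintype.sum_sum_type]
  simp only [Fintype.sum_sum_type, wt]
  have e1 : ∑ d, ∑ d', (if (Sum.inl d : D ⊕ (X × Fin m)) ∈ C then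
      (if (Sum.inl d' : D ⊕ (X × Fin m)) ∉ C then (if d ≠ d' ∧ ι d = d' ∧ ι d' = d then 2 else 0)
        else 0) else 0) = 2 * kX ι m C := by
    rw [kX, Finset.card_filter, Finset.mul_sum]
    apply Finset.sum_congr rfl
    intro d _
    by_cases hd : (Sum.inl d : D ⊕ (X × Fin m)) ∈ C
    · simp only [hd, if_true, true_and]
      rw [Finset.sum_eq_single (ι d)]
      · by_cases h' : (Sum.inl (ι d) : D ⊕ (X × Fin m)) ∉ C
        · have hne : d ≠ ι d := by
            intro h
            rw [← h] at h'
            exact h' hd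
          simp [h', hne, hι]
        · simp [h']
      · intro b _ hb
        have : ¬ (d ≠ b ∧ ι d = b ∧ ι b = d) := fun h => hb h.2.1.symm
        simp [this]
      · intro h; exact absurd (Finset.mem_univ _) h
    · simp [hd]
  have e2 : ∑ d, ∑ p : X × Fin m, (if (Sum.inl d : D ⊕ (X × Fin m)) ∈ C then
      (if (Sum.inr p : D ⊕ (X × Fin m)) ∉ C then (if π d = p.1 then 1 else 0)
        else 0) else 0) = ∑ x, aX π m C x * jX m C x := by
    rw [Finset.sum_comm, Fintype.sum_prod_type]
    apply Finset.sum_congr rfl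
    intro x _
    rw [aX, jX, Finset.card_filter, Finset.card_filter, mul_comm, Finset.sum_mul]
    apply Finset.sum_congr rfl
    intro i _
    rw [Finset.mul_sum]
    apply Finset.sum_congr rfl
    intro d _
    by_cases h1 : (Sum.inl d : D ⊕ (X × Fin m)) ∈ C <;>
    by_cases h2 : (Sum.inr (x, i) : D ⊕ (X × Fin m)) ∈ C <;>
    by_cases h3 : π d = x <;> simp [h1, h2, h3]
  have e3 : ∑ p : X × Fin m, ∑ d, (if (Sum.inr p : D ⊕ (X × Fin m)) ∈ C then
      (if (Sum.inl d : D ⊕ (X × Fin m)) ∉ C then (if π d = p.1 then 1 else 0)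
        else 0) else 0) = ∑ x, bX π m C x * iX m C x := by
    rw [Fintype.sum_prod_type]
    apply Finset.sum_congr rfl
    intro x _
    rw [bX, iX, Finset.card_filter, Finset.card_filter, mul_comm, Finset.sum_mul]
    apply Finset.sum_congr rfl
    intro i _
    rw [Finset.mul_sum]
    apply Finset.sum_congr rfl
    intro d _
    by_cases h1 : (Sum.inl d : D ⊕ (X × Fin m)) ∈ C <;>
    by_cases h2 : (Sum.inr (x, i) : D ⊕ (X × Fin m)) ∈ C <;>
    by_cases h3 : π d = x <;> simp [h1, h2, h3]
  rw [Finset.sum_add_distrib, Finset.sum_add_distrib, e1, e2, e3, Finset.sum_add_distrib]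
  have e4 : ∑ p : X × Fin m, ∑ q : X × Fin m, (if (Sum.inr p : D ⊕ (X × Fin m)) ∈ C then
      (if (Sum.inr q : D ⊕ (X × Fin m)) ∉ C then 0 else 0) else 0) = 0 := by
    simp
  rw [e4]
  ring

theorem odd_bound (hι : ∀ d, ι (ι d) = d) (hm : 3 ≤ m)
    (hcard : ∀ x, (univ.filter (fun d => π d = x)).card = m + 2)
    (hBL : ∀ A : X → Prop, (univ.filter (fun d => A (π d) ∧ ¬ A (π (ι d)))).card ≠ 1)
    (x0 : X)
    (hP : ∀ A : X → Prop, (∀ d, A (π d) → A (π (ι d))) →
      (univ.filter (fun d => ι d = d ∧ A (π d))).card = 1 → A x0)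
    (hE : ∀ a, a ∈ E ↔ a ∉ C) (hodd : Odd C.card) :
    m + 2 ≤ (∑ a ∈ C, ∑ b ∈ E, wt π ι m a b) ∨
    ((∃ a ∈ C, ∃ d, a = Sum.inl d ∧ ι d = d) ∧ m + 2 ≤ (∑ a ∈ C, ∑ b ∈ E, wt π ι m a b) + 2) ∨
    ((∃ a ∈ C, a = Sum.inr (x0, ⟨0, by omega⟩)) ∧
      m + 2 ≤ (∑ a ∈ C, ∑ b ∈ E, wt π ι m a b) + 2) := by
  rw [cut_eq π ι m C E hι hE]
  have hab := ab_eq π m C hcard
  have hij := ij_eq (X := X) (D := D) m C
  by_cases hA : ∃ x, iX m C x ≠ 0 ∧ jX m C x ≠ 0
  · left
    obtain ⟨x, hi, hj⟩ := hA
    have h1 : aX π m C x * jX m C x + bX π m C x * iX m C x ≤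
        ∑ x, (aX π m C x * jX m C x + bX π m C x * iX m C x) :=
      Finset.single_le_sum (f := fun x => aX π m C x * jX m C x + bX π m C x * iX m C x)
        (fun _ _ => Nat.zero_le _) (Finset.mem_univ x)
    have h2 : aX π m C x * 1 ≤ aX π m C x * jX m C x := Nat.mul_le_mul_left _ (by omega)
    have h3 : bX π m C x * 1 ≤ bX π m C x * iX m C x := Nat.mul_le_mul_left _ (by omega)
    have := hab x
    omega
  push Not at hA
  let t : X → ℕ := fun x => if iX m C x = 0 then aX π m C x else bX π m C x
  have hg : ∀ x, aX π m C x * jX m C x + bX π m C x * iX m C x = m * t x := by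
    intro x
    by_cases h : iX m C x = 0
    · have : jX m C x = m := by have := hij x; omega
      simp only [t, h, if_true, this]
      ring
    · have h0 : jX m C x = 0 := hA x h
      have : iX m C x = m := by have := hij x; omega
      simp only [t, if_neg h]
      rw [h0, this]
      ring
  rw [Finset.sum_congr rfl (fun x _ => hg x), ← Finset.mul_sum]
  -- characterisations
  have hbX : ∀ x, bX π m C x = 0 → ∀ d, π d = x → (Sum.inl d : D ⊕ (X × Fin m)) ∈ C := by
    intro x hx d hd
    rw [bX, Finset.card_eq_zero, Finset.filter_eq_empty_iff] at hx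
    by_contra h
    exact hx (Finset.mem_univ d) ⟨hd, h⟩
  have haX : ∀ x, aX π m C x = 0 → ∀ d, π d = x → (Sum.inl d : D ⊕ (X × Fin m)) ∉ C := by
    intro x hx d hd h
    rw [aX, Finset.card_eq_zero, Finset.filter_eq_empty_iff] at hx
    exact hx (Finset.mem_univ d) ⟨hd, h⟩
  have hk0 : kX ι m C = 0 → ∀ d, (Sum.inl d : D ⊕ (X × Fin m)) ∈ C →
      (Sum.inl (ι d) : D ⊕ (X × Fin m)) ∈ C := by
    intro hk d hd
    rw [kX, Finset.card_eq_zero, Finset.filter_eq_empty_iff] at hk
    by_contra h
    exact hk (Finset.mem_univ d) ⟨hd, h⟩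
  rcases Nat.lt_or_ge (∑ x, t x) 2 with hlt | hge
  swap
  · left
    have : m * 2 ≤ m * ∑ x, t x := Nat.mul_le_mul_left m hge
    omega
  rcases Nat.eq_zero_or_pos (∑ x, t x) with h0 | hpos
  · exfalso
    have ht0 : ∀ x, t x = 0 := by
      intro x
      exact (Finset.sum_eq_zero_iff.1 h0) x (Finset.mem_univ x)
    rw [card_eq π m C] at hodd
    have : Even (∑ x, (aX π m C x + iX m C x)) := by
      apply Finset.even_sum
      intro x _
      by_cases h : iX m C x = 0
      · have := ht0 x
        simp only [t, h, if_true] at this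
        rw [this, h]
        exact ⟨0, rfl⟩
      · have h1 := ht0 x
        simp only [t, if_neg h] at h1
        have h2 : jX m C x = 0 := hA x h
        have h3 := hij x
        have h4 := hab x
        refine ⟨m + 1, by omega⟩
    exact (Nat.not_even_iff_odd.2 hodd) this
  have hone : ∑ x, t x = 1 := by omega
  obtain ⟨w, hw⟩ : ∃ w, t w ≠ 0 := by
    by_contra h
    push Not at h
    rw [Finset.sum_congr rfl (fun x _ => h x)] at hone
    simp at hone
  have hsplit : t w + ∑ x ∈ univ.erase w, t x = ∑ x, t x :=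
    Finset.add_sum_erase _ _ (Finset.mem_univ w)
  have htw : t w = 1 := by omega
  have hoth : ∀ x, x ≠ w → t x = 0 := by
    intro x hx
    have h1 : ∑ x ∈ univ.erase w, t x = 0 := by omega
    exact (Finset.sum_eq_zero_iff.1 h1) x (Finset.mem_erase.2 ⟨hx, Finset.mem_univ x⟩)
  rw [hone, mul_one]
  by_cases hiw : iX m C w = 0
  · -- one dart in C at w
    have haw : aX π m C w = 1 := by
      simp only [t, hiw, if_true] at htw
      exact htw
    rw [aX, Finset.card_eq_one] at haw
    obtain ⟨d0, hd0⟩ := haw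
    have hd0' : ∀ d, (π d = w ∧ (Sum.inl d : D ⊕ (X × Fin m)) ∈ C) ↔ d = d0 := by
      intro d
      have : d ∈ (univ.filter (fun d => π d = w ∧ (Sum.inl d : D ⊕ (X × Fin m)) ∈ C)) ↔
        d ∈ ({d0} : Finset D) := by rw [hd0]
      simpa using this
    have hd0w := (hd0' d0).2 rfl
    have hchar : ∀ d, (Sum.inl d : D ⊕ (X × Fin m)) ∈ C ↔ (iX m C (π d) ≠ 0 ∨ d = d0) := by
      intro d
      by_cases hdw : π d = w
      · constructor
        · intro h; right; exact (hd0' d).1 ⟨hdw, h⟩
        · rintro (h | h)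
          · rw [hdw] at h; exact absurd hiw h
          · rw [h]; exact hd0w.2
      · have ht := hoth _ hdw
        constructor
        · intro h
          left
          intro h'
          simp only [t, h', if_true] at ht
          exact haX _ ht d rfl h
        · rintro (h | h)
          · simp only [t, if_neg h] at ht
            exact hbX _ ht d rfl
          · rw [h] at hdw; exact absurd hd0w.1 hdw
    by_cases hfix : ι d0 = d0
    · right; left
      exact ⟨⟨Sum.inl d0, hd0w.2, d0, rfl, hfix⟩, by omega⟩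
    by_cases hk : kX ι m C = 0
    · exfalso
      have hk' := hk0 hk
      have h1 : iX m C (π (ι d0)) ≠ 0 := by
        rcases (hchar (ι d0)).1 (hk' d0 hd0w.2) with h | h
        · exact h
        · exact absurd h hfix
      apply hBL (fun x => iX m C x ≠ 0)
      rw [Finset.card_eq_one]
      refine ⟨ι d0, ?_⟩
      ext d
      simp only [Finset.mem_filter, Finset.mem_univ, true_and, Finset.mem_singleton]
      constructor
      · rintro ⟨h2, h3⟩
        have h4 := hk' d ((hchar d).2 (Or.inl h2))
        rcases (hchar (ι d)).1 h4 with h5 | h5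
        · exact absurd h5 h3
        · rw [← h5, hι]
      · intro h
        subst h
        refine ⟨h1, ?_⟩
        rw [hι, hd0w.1]
        simpa using hiw
    · left; omega
  · -- all but one dart in C at w
    have hbw : bX π m C w = 1 := by
      simp only [t, if_neg hiw] at htw
      exact htw
    rw [bX, Finset.card_eq_one] at hbw
    obtain ⟨d0, hd0⟩ := hbw
    have hd0' : ∀ d, (π d = w ∧ (Sum.inl d : D ⊕ (X × Fin m)) ∉ C) ↔ d = d0 := by
      intro d
      have : d ∈ (univ.filter (fun d => π d = w ∧ (Sum.inl d : D ⊕ (X × Fin m)) ∉ C)) ↔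
        d ∈ ({d0} : Finset D) := by rw [hd0]
      simpa using this
    have hd0w := (hd0' d0).2 rfl
    have hchar : ∀ d, (Sum.inl d : D ⊕ (X × Fin m)) ∈ C ↔ (iX m C (π d) ≠ 0 ∧ d ≠ d0) := by
      intro d
      by_cases hdw : π d = w
      · constructor
        · intro h
          refine ⟨by rw [hdw]; exact hiw, ?_⟩
          intro h'
          subst h'
          exact hd0w.2 h
        · rintro ⟨_, h⟩
          by_contra h'
          exact h ((hd0' d).1 ⟨hdw, h'⟩)
      · have ht := hoth _ hdw
        constructor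
        · intro h
          refine ⟨?_, ?_⟩
          · intro h'
            simp only [t, h', if_true] at ht
            exact haX _ ht d rfl h
          · intro h'
            rw [h'] at hdw
            exact hdw hd0w.1
        · rintro ⟨h, _⟩
          simp only [t, if_neg h] at ht
          exact hbX _ ht d rfl
    by_cases hfix : ∃ d, ι d = d ∧ (Sum.inl d : D ⊕ (X × Fin m)) ∈ C
    · right; left
      obtain ⟨d, h1, h2⟩ := hfix
      exact ⟨⟨Sum.inl d, h2, d, rfl, h1⟩, by omega⟩
    by_cases hk : kX ι m C = 0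
    · have hk' := hk0 hk
      by_cases hfd : ι d0 = d0
      · right; right
        have hx0 : iX m C x0 ≠ 0 := by
          apply hP (fun x => iX m C x ≠ 0)
          · intro d hd
            by_cases hdd : d = d0
            · rw [hdd, hfd, hd0w.1]; exact hiw
            · exact ((hchar (ι d)).1 (hk' d ((hchar d).2 ⟨hd, hdd⟩))).1
          · rw [Finset.card_eq_one]
            refine ⟨d0, ?_⟩
            ext d
            simp only [Finset.mem_filter, Finset.mem_univ, true_and, Finset.mem_singleton]
            constructor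
            · rintro ⟨h1, h2⟩
              by_contra h3
              exact hfix ⟨d, h1, (hchar d).2 ⟨h2, h3⟩⟩
            · intro h
              subst h
              exact ⟨hfd, by rw [hd0w.1]; exact hiw⟩
        have hj0 : jX m C x0 = 0 := hA x0 hx0
        refine ⟨⟨_, ?_, rfl⟩, by omega⟩
        rw [jX, Finset.card_eq_zero, Finset.filter_eq_empty_iff] at hj0
        by_contra h
        exact hj0 (Finset.mem_univ _) h
      · exfalso
        have h1 : (Sum.inl (ι d0) : D ⊕ (X × Fin m)) ∉ C := by
          intro h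
          have := hk' _ h
          rw [hι] at this
          exact hd0w.2 this
        have h2 : ¬ (iX m C (π (ι d0)) ≠ 0) := by
          intro h
          exact h1 ((hchar (ι d0)).2 ⟨h, hfd⟩)
        apply hBL (fun x => iX m C x ≠ 0)
        rw [Finset.card_eq_one]
        refine ⟨d0, ?_⟩
        ext d
        simp only [Finset.mem_filter, Finset.mem_univ, true_and, Finset.mem_singleton]
        constructor
        · rintro ⟨h3, h4⟩
          by_contra h5
          exact h4 ((hchar (ι d)).1 (hk' d ((hchar d).2 ⟨h3, h5⟩))).1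
        · intro h
          subst h
          exact ⟨by rw [hd0w.1]; exact hiw, h2⟩
    · left; omega

theorem exists_factor (hι : ∀ d, ι (ι d) = d) (hm : 3 ≤ m)
    (hcard : ∀ x, (univ.filter (fun d => π d = x)).card = m + 2)
    (hBL : ∀ A : X → Prop, (univ.filter (fun d => A (π d) ∧ ¬ A (π (ι d)))).card ≠ 1)
    (x0 : X)
    (hP : ∀ A : X → Prop, (∀ d, A (π d) → A (π (ι d))) →
      (univ.filter (fun d => ι d = d ∧ A (π d))).card = 1 → A x0) :
    ∃ F : D → Prop, (∀ d, F d → F (ι d)) ∧
      ∀ x, (univ.filter (fun d => π d = x ∧ F d)).card = 2 := by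
  obtain ⟨M, hM⟩ := exists_pm (gad π ι m) (m + 2) (wt π ι m) (wt_symm π ι m) (wt_adj π ι m)
    (wt_deg π ι m hcard) (fun a => ∃ d, a = Sum.inl d ∧ ι d = d)
    (fun a => a = Sum.inr (x0, ⟨0, by omega⟩))
    (by
      rintro a b ⟨d, rfl, hd⟩ ⟨d', rfl, hd'⟩ hne
      exact ⟨fun h => hne (by rw [h]), Or.inr ⟨hd, hd'⟩⟩)
    (by
      rintro a b rfl rfl hne
      exact absurd rfl hne)
    (by
      intro C E hodd hE
      exact odd_bound π ι m C E hι hm hcard hBL x0 hP hE hodd)
    (by omega)
  have hpart : ∀ v, ∃! w, M.Adj v w := fun v => hM.1 (hM.2 v)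
  choose q hq hqu using hpart
  have hqq : ∀ v, q (q v) = v := fun v => (hqu (q v) v (hq v).symm).symm
  have hadjq : ∀ v, (gad π ι m).Adj v (q v) := fun v => (hq v).adj_sub
  -- inner vertices are matched to darts
  have hinn : ∀ p : X × Fin m, ∃ d, q (Sum.inr p) = Sum.inl d ∧ π d = p.1 := by
    intro p
    have h := hadjq (Sum.inr p)
    rcases hqp : q (Sum.inr p) with d | p'
    · rw [hqp] at h
      exact ⟨d, rfl, h⟩
    · rw [hqp] at h
      exact absurd h (fun h => h)
  choose e he heπ using hinn
  have hqe : ∀ p, q (Sum.inl (e p)) = Sum.inr p := by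
    intro p
    rw [← he p, hqq]
  have heinj : Function.Injective e := by
    intro p p' h
    have := hqe p
    rw [h, hqe p'] at this
    exact (Sum.inr_injective this).symm
  let F : D → Prop := fun d => ∃ d', q (Sum.inl d) = Sum.inl d'
  have hnF : ∀ d, ¬ F d ↔ ∃ i : Fin m, e (π d, i) = d := by
    intro d
    constructor
    · intro h
      rcases hqd : q (Sum.inl d) with d' | p
      · exact absurd ⟨d', hqd⟩ h
      · have h1 : q (Sum.inr p) = Sum.inl d := by rw [← hqd, hqq]
        have h2 : e p = d := by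
          have := he p
          rw [h1] at this
          exact (Sum.inl_injective this).symm
        have h3 := heπ p
        rw [h2] at h3
        refine ⟨p.2, ?_⟩
        rw [h3]
        exact h2
    · rintro ⟨i, hi⟩ ⟨d', hd'⟩
      have := hqe (π d, i)
      rw [hi, hd'] at this
      cases this
  refine ⟨F, ?_, ?_⟩
  · rintro d ⟨d', hd'⟩
    have h := hadjq (Sum.inl d)
    rw [hd'] at h
    rcases h.2 with ⟨h1, h2⟩ | ⟨h1, h2⟩
    · refine ⟨d, ?_⟩
      rw [h1, ← hd', hqq]
    · rw [h1]
      exact ⟨d', hd'⟩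
  · intro x
    have h1 : (univ.filter (fun d => π d = x ∧ ¬ F d)).card = m := by
      have : (univ.filter (fun d => π d = x ∧ ¬ F d)) =
          (univ : Finset (Fin m)).map ⟨fun i => e (x, i), by
            intro i j hij
            have := heinj hij
            simpa using this⟩ := by
        ext d
        simp only [Finset.mem_filter, Finset.mem_univ, true_and, Finset.mem_map,
          Function.Embedding.coeFn_mk]
        constructor
        · rintro ⟨h1, h2⟩
          obtain ⟨i, hi⟩ := (hnF d).1 h2
          rw [h1] at hi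
          exact ⟨i, hi⟩
        · rintro ⟨i, hi⟩
          have h1 : π d = x := by rw [← hi]; exact heπ (x, i)
          refine ⟨h1, (hnF d).2 ⟨i, ?_⟩⟩
          rw [h1]; exact hi
      rw [this, Finset.card_map, Finset.card_univ, Fintype.card_fin]
    have h2 := hcard x
    have h3 : (univ.filter (fun d => π d = x ∧ F d)).card +
        (univ.filter (fun d => π d = x ∧ ¬ F d)).card = (univ.filter (fun d => π d = x)).card := by
      rw [← Finset.filter_filter, ← Finset.filter_filter]
      exact Finset.card_filter_add_card_filter_not _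
    have h4 : (univ.filter (fun d => π d = x ∧ F d)).card + m = m + 2 := by
      rw [← h2, ← h3]
      congr 1
      convert h1.symm
    have h5 := Nat.add_right_cancel (m := m) (h4.trans (add_comm m 2))
    convert h5

end

end Pool.Agent.H150R2.ZSF
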