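import Pool.Agent.H150R2.Induct

/-!
Zero-sum 5-flows in regular graphs.
-/

namespace Pool.Agent.H150R2.ZSF

open Finset SimpleGraph
open scoped Classical

set_option linter.unusedSectionVars false

variable {V : Type*} [Fintype V]

theorem main_three (n : ℕ) (G : SimpleGraph V) (hdeg : ∀ v, dg G v = 3 * n) :
    ∃ f, Ok G f ∧ ∀ v, sm G f v = 0 := by
  obtain ⟨ρ, hρ⟩ := koenig (3 * n) (fun v w => if G.Adj v w then 1 else 0)
    (by
      intro v
      rw [← Finset.card_filter]
      exact hdeg v)
    (by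
      intro w
      rw [← Finset.card_filter, ← hdeg w, dg]
      congr 1
      ext v
      simp only [Finset.mem_filter, Finset.mem_univ, true_and]
      exact G.adj_comm v w)
  obtain ⟨Y, hY⟩ := exists_card (m := 3 * n) n (by omega)
  obtain ⟨c, hc1, hc2⟩ : ∃ c : Fin (3 * n) → ℤ, (∀ i, c i = -2 ∨ c i = 1) ∧ ∑ i, c i = 0 := by
    refine ⟨fun i => if i ∈ Y then -2 else 1, ?_, ?_⟩
    · intro i
      by_cases h : i ∈ Y
      · left; simp [h]
      · right; simp [h]
    · have : ∀ i : Fin (3 * n), (if i ∈ Y then (-2 : ℤ) else 1) = 1 + (if i ∈ Y then -3 else 0) := by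
        intro i
        by_cases h : i ∈ Y
        · simp [h]
        · simp [h]
      simp only [this]
      rw [Finset.sum_add_distrib, Finset.sum_ite_mem, Finset.univ_inter, Finset.sum_const,
        Finset.sum_const, Finset.card_univ, Fintype.card_fin, hY]
      simp only [nsmul_eq_mul]
      push_cast
      ring
  have h1 : ∀ v w, G.Adj v w → ∃ i0, ∀ i, ρ i v = w ↔ i = i0 := by
    intro v w h
    apply uniq_of
    rw [← hρ v w, if_pos h]
  have h0 : ∀ v w, ¬ G.Adj v w → ∀ i, ¬ (ρ i v = w) := by
    intro v w h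
    apply none_of
    rw [← hρ v w, if_neg h]
  obtain ⟨f, hf⟩ : ∃ f : Sym2 V → ℤ, ∀ v w, f s(v, w) =
      (∑ i, if ρ i v = w then c i else 0) + (∑ i, if ρ i w = v then c i else 0) :=
    ⟨Sym2.lift ⟨fun v w => (∑ i, if ρ i v = w then c i else 0) + (∑ i, if ρ i w = v then c i else 0),
      fun _ _ => add_comm _ _⟩, fun v w => rfl⟩
  refine ⟨f, ?_, ?_⟩
  · intro v w hvw
    obtain ⟨i0, hi0⟩ := h1 v w hvw
    obtain ⟨i1, hi1⟩ := h1 w v hvw.symm
    rw [hf]
    have e1 : (∑ i, if ρ i v = w then c i else 0) = c i0 := by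
      simp only [hi0]
      rw [Finset.sum_ite_eq' univ i0 c, if_pos (Finset.mem_univ _)]
    have e2 : (∑ i, if ρ i w = v then c i else 0) = c i1 := by
      simp only [hi1]
      rw [Finset.sum_ite_eq' univ i1 c, if_pos (Finset.mem_univ _)]
    rw [e1, e2]
    rcases hc1 i0 with h | h <;> rcases hc1 i1 with h' | h' <;> rw [h, h'] <;> decide
  · intro v
    have htot : ∑ w, f s(v, w) = 0 := by
      simp only [hf]
      rw [Finset.sum_add_distrib, Finset.sum_comm]
      have e1 : ∑ y, ∑ x, (if ρ y v = x then c y else 0) = ∑ y, c y := by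
        apply Finset.sum_congr rfl
        intro y _
        rw [Finset.sum_ite_eq, if_pos (Finset.mem_univ _)]
      have e2 : ∑ x, ∑ i, (if ρ i x = v then c i else 0) = ∑ y, c y := by
        rw [Finset.sum_comm]
        apply Finset.sum_congr rfl
        intro y _
        have : ∀ x, (ρ y x = v ↔ x = (ρ y).symm v) := by
          intro x
          constructor
          · intro h; rw [← h]; simp
          · intro h; rw [h]; simp
        simp only [this]
        rw [Finset.sum_ite_eq' univ ((ρ y).symm v) (fun _ => c y), if_pos (Finset.mem_univ _)]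
      rw [e1, e2, hc2]
      norm_num
    rw [sm, ← htot]
    apply Finset.sum_subset (Finset.subset_univ _)
    intro w _ hw
    simp only [Finset.mem_filter, Finset.mem_univ, true_and] at hw
    rw [hf]
    have e1 : (∑ i, if ρ i v = w then c i else 0) = 0 := by
      apply Finset.sum_eq_zero
      intro i _
      rw [if_neg (h0 v w hw i)]
    have e2 : (∑ i, if ρ i w = v then c i else 0) = 0 := by
      apply Finset.sum_eq_zero
      intro i _
      rw [if_neg (h0 w v (fun h => hw h.symm) i)]
    rw [e1, e2, add_zero]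

theorem main_four (G : SimpleGraph V) (hdeg : ∀ v, dg G v = 4) :
    ∃ f, Ok G f ∧ ∀ v, sm G f v = 0 := by
  obtain ⟨σ, hσ⟩ := exists_perm (fun v w => if G.Adj v w then 1 else 0) 4 (by norm_num)
    (by
      intro v
      rw [← Finset.card_filter]
      exact hdeg v)
    (by
      intro w
      rw [← Finset.card_filter, ← hdeg w, dg]
      congr 1
      ext v
      simp only [Finset.mem_filter, Finset.mem_univ, true_and]
      exact G.adj_comm v w)
  have hadj : ∀ v, G.Adj v (σ v) := by
    intro v
    by_contra h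
    exact hσ v (if_neg h)
  obtain ⟨f, hf⟩ : ∃ f : Sym2 V → ℤ, ∀ v w, f s(v, w) =
      1 - 2 * ((if σ v = w then 1 else 0) + (if σ w = v then 1 else 0)) :=
    ⟨Sym2.lift ⟨fun v w => 1 - 2 * ((if σ v = w then 1 else 0) + (if σ w = v then 1 else 0)),
      fun v w => by beta_reduce; rw [add_comm]⟩, fun v w => rfl⟩
  refine ⟨f, ?_, ?_⟩
  · intro v w _
    rw [hf]
    by_cases h1 : σ v = w <;> by_cases h2 : σ w = v
    · rw [if_pos h1, if_pos h2]; decide
    · rw [if_pos h1, if_neg h2]; decide
    · rw [if_neg h1, if_pos h2]; decide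
    · rw [if_neg h1, if_neg h2]; decide
  · intro v
    rw [sm]
    simp only [hf]
    rw [Finset.sum_sub_distrib, ← Finset.mul_sum, Finset.sum_add_distrib, Finset.sum_const,
      nsmul_eq_mul, mul_one]
    have e1 : ∑ w ∈ univ.filter (fun w => G.Adj v w), (if σ v = w then (1 : ℤ) else 0) = 1 := by
      rw [Finset.sum_ite_eq, if_pos]
      simp only [Finset.mem_filter, Finset.mem_univ, true_and]
      exact hadj v
    have e2 : ∑ w ∈ univ.filter (fun w => G.Adj v w), (if σ w = v then (1 : ℤ) else 0) = 1 := by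
      have : ∀ x, (σ x = v ↔ x = σ.symm v) := by
        intro x
        constructor
        · intro h; rw [← h]; simp
        · intro h; rw [h]; simp
      simp only [this]
      rw [Finset.sum_ite_eq' _ (σ.symm v) (fun _ => (1 : ℤ)), if_pos]
      simp only [Finset.mem_filter, Finset.mem_univ, true_and]
      have h := hadj (σ.symm v)
      rw [Equiv.apply_symm_apply] at h
      exact h.symm
    rw [e1, e2]
    have h4 : (univ.filter (fun w => G.Adj v w)).card = 4 := hdeg v
    rw [h4]
    norm_num

theorem main_all (r : ℕ) (hr : 3 ≤ r) (G : SimpleGraph V) (hdeg : ∀ v, dg G v = r) :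
    ∃ f, Ok G f ∧ ∀ v, sm G f v = 0 := by
  by_cases h3 : r % 3 = 0
  · obtain ⟨n, hn⟩ : ∃ n, r = 3 * n := ⟨r / 3, by omega⟩
    exact main_three n G (fun v => by rw [hdeg v, hn])
  · by_cases h4 : r = 4
    · exact main_four G (fun v => by rw [hdeg v, h4])
    · obtain ⟨m, hm⟩ : ∃ m, r = m + 2 := ⟨r - 2, by omega⟩
      subst hm
      exact main_reg m (by omega) h3 G hdeg

theorem main_frozen (V : Type) [Fintype V] [DecidableEq V] (G : SimpleGraph V)
    [DecidableRel G.Adj] (r : ℕ) (hr : 3 ≤ r) (hG : G.IsRegularOfDegree r) :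
      ∃ f : Sym2 V → ℤ,
        (∀ e ∈ G.edgeSet, f e ≠ 0 ∧ |f e| < 5) ∧
        ∀ v : V, ∑ w ∈ G.neighborFinset v, f s(v, w) = 0 := by
  have hN : ∀ v : V, G.neighborFinset v = univ.filter (fun w => G.Adj v w) := by
    intro v
    ext w
    simp
  obtain ⟨f, hf1, hf2⟩ := main_all r hr G (by
    intro v
    have := hG v
    rw [← this, ← SimpleGraph.card_neighborFinset_eq_degree, hN v, dg]
    congr!)
  refine ⟨f, ?_, ?_⟩
  · intro e he
    induction e using Sym2.ind with
    | _ v w => exact hf1 v w he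
  · intro v
    rw [hN v, ← hf2 v, sm]
    congr!

end Pool.Agent.H150R2.ZSF
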