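import Pool.Agent.H150R2.Bridge

/-!
Induction over bridges.
-/

namespace Pool.Agent.H150R2.ZSF

open Finset SimpleGraph
open scoped Classical

set_option linter.unusedSectionVars false

variable {V : Type*} [Fintype V]

theorem dg_del_le (H : SimpleGraph V) (u w v : V) : dg (H.deleteEdges {s(u, w)}) v ≤ dg H v := by
  rw [dg, dg]
  apply Finset.card_le_card
  intro x hx
  simp only [Finset.mem_filter, Finset.mem_univ, true_and, del_adj] at hx ⊢
  exact hx.1

theorem sum_dg_del (H : SimpleGraph V) (u w : V) (h : H.Adj u w) :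
    ∑ v, dg (H.deleteEdges {s(u, w)}) v < ∑ v, dg H v := by
  apply Finset.sum_lt_sum
  · intro v _
    exact dg_del_le H u w v
  · refine ⟨u, Finset.mem_univ u, ?_⟩
    rw [dg_del_left H u w h]
    exact Nat.lt_succ_self _

theorem no_bridge_at (H : SimpleGraph V) (m : ℕ) (hm : 3 ≤ m) (h3 : (m + 2) % 3 ≠ 0)
    (hdeg : ∀ v, dg H v ≤ m + 2) (v0 : V)
    (hno : ∀ u w, H.Adj u w → H.Reachable v0 u → (H.deleteEdges {s(u, w)}).Reachable u w) :
    (∀ s, Lab s → dg H v0 < m + 2 → ∃ f, Ok H f ∧
      (∀ v, H.Reachable v0 v → v ≠ v0 → InA (m + 2 - dg H v) (sm H f v)) ∧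
      InA (m + 2 - dg H v0 - 1) (sm H f v0 + s)) ∧
    (∃ f, Ok H f ∧ ∀ v, H.Reachable v0 v → InA (m + 2 - dg H v) (sm H f v)) := by
  obtain ⟨H', h1, h2, hBL, hP⟩ := comp_noBridge H m v0 hm hno
  have hd1 : ∀ v, H.Reachable v0 v → dg H' v = dg H v := by
    intro v hv
    rw [dg, dg]
    congr 1
    ext x
    simp only [Finset.mem_filter, Finset.mem_univ, true_and, h1 v hv x]
  have hd2 : ∀ v, dg H' v ≤ m + 2 := by
    intro v
    by_cases hv : H.Reachable v0 v
    · rw [hd1 v hv]; exact hdeg v
    · have : dg H' v = 0 := by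
        rw [dg, Finset.card_eq_zero, Finset.filter_eq_empty_iff]
        intro x _ hx
        exact h2 v hv x hx
      omega
  have hr0 : H.Reachable v0 v0 := Reachable.refl v0
  constructor
  · intro s hs hlt
    obtain ⟨f, hf1, hf2, hf3⟩ := block_at H' m hm h3 hd2 hBL v0 s hs (by rw [hd1 v0 hr0]; exact hlt) hP
    obtain ⟨g, hg1, hg2⟩ := transfer H H' v0 h1 f hf1
    refine ⟨g, hg1, ?_, ?_⟩
    · intro v hv hne
      rw [(hg2 v hv).1, (hg2 v hv).2]
      exact hf2 v hne
    · rw [(hg2 v0 hr0).1, (hg2 v0 hr0).2]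
      exact hf3
  · obtain ⟨f, hf1, hf2⟩ := block_free H' m hm h3 hd2 hBL v0 hP
    obtain ⟨g, hg1, hg2⟩ := transfer H H' v0 h1 f hf1
    refine ⟨g, hg1, ?_⟩
    intro v hv
    rw [(hg2 v hv).1, (hg2 v hv).2]
    exact hf2 v

theorem bridge_choice (H : SimpleGraph V) (v0 : V)
    (hbr : ¬ ∀ u w, H.Adj u w → H.Reachable v0 u → (H.deleteEdges {s(u, w)}).Reachable u w) :
    ∃ u w, H.Adj u w ∧ (H.deleteEdges {s(u, w)}).Reachable v0 u ∧
      ¬ (H.deleteEdges {s(u, w)}).Reachable u w := by
  push Not at hbr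
  obtain ⟨u, w, huw, hr, hb⟩ := hbr
  have h := reach_side H u w v0 u hr
  rcases h with h | h | h
  · exact ⟨u, w, huw, h, hb⟩
  · exact ⟨u, w, huw, h, hb⟩
  · refine ⟨w, u, huw.symm, ?_, ?_⟩
    · rw [← del_swap]; exact h
    · rw [← del_swap]; exact fun h' => hb h'.symm

/-- the statement with a prescribed semi-edge label -/
theorem main_at (m : ℕ) (hm : 3 ≤ m) (h3 : (m + 2) % 3 ≠ 0) : ∀ (n : ℕ) (H : SimpleGraph V),
    (∑ v, dg H v ≤ n) → (∀ v, dg H v ≤ m + 2) → ∀ (v0 : V) (s : ℤ), Lab s → dg H v0 < m + 2 →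
    ∃ f, Ok H f ∧
      (∀ v, H.Reachable v0 v → v ≠ v0 → InA (m + 2 - dg H v) (sm H f v)) ∧
      InA (m + 2 - dg H v0 - 1) (sm H f v0 + s) := by
  intro n
  induction n with
  | zero =>
    intro H hn hdeg v0 s hs hlt
    apply (no_bridge_at H m hm h3 hdeg v0 ?_).1 s hs hlt
    intro u w huw _
    exfalso
    have := sum_dg_del H u w huw
    omega
  | succ n ih =>
    intro H hn hdeg v0 s hs hlt
    by_cases hno : ∀ u w, H.Adj u w → H.Reachable v0 u → (H.deleteEdges {s(u, w)}).Reachable u w
    · exact (no_bridge_at H m hm h3 hdeg v0 hno).1 s hs hlt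
    · obtain ⟨u, w, huw, hr, hb⟩ := bridge_choice H v0 hno
      have hn' : ∑ v, dg (H.deleteEdges {s(u, w)}) v ≤ n := by
        have := sum_dg_del H u w huw
        omega
      have hdeg' : ∀ v, dg (H.deleteEdges {s(u, w)}) v ≤ m + 2 :=
        fun v => le_trans (dg_del_le H u w v) (hdeg v)
      have hdu := dg_del_left H u w huw
      have hdw := dg_del_right H u w huw
      have hwv0 : w ≠ v0 := by
        intro h
        have h5 := hr.symm
        rw [← h] at h5
        exact hb h5
      obtain ⟨f1, hf1, hf1v, hf10⟩ := ih (H.deleteEdges {s(u, w)}) hn' hdeg' v0 s hs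
        (lt_of_le_of_lt (dg_del_le H u w v0) hlt)
      -- the label of the bridge
      obtain ⟨t, ht, htu, htu0⟩ : ∃ t, Lab t ∧
          (u ≠ v0 → InA (m + 2 - dg H u) (sm (H.deleteEdges {s(u, w)}) f1 u + t)) ∧
          (u = v0 → InA (m + 2 - dg H u - 1) (sm (H.deleteEdges {s(u, w)}) f1 u + t + s)) := by
        by_cases hu : u = v0
        · have h1 : m + 2 - dg (H.deleteEdges {s(u, w)}) v0 - 1 = (m + 2 - dg H u - 1) + 1 := by
            rw [← hu]
            have := hdeg u
            rw [hu] at this hdu ⊢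
            omega
          rw [h1] at hf10
          obtain ⟨t, ht, hIn⟩ := hf10
          refine ⟨t, ht, fun h => absurd hu h, fun _ => ?_⟩
          rw [← hu] at hIn
          have : sm (H.deleteEdges {s(u, w)}) f1 u + t + s =
            sm (H.deleteEdges {s(u, w)}) f1 u + s + t := by ring
          rw [this]
          exact hIn
        · have h1 : m + 2 - dg (H.deleteEdges {s(u, w)}) u = (m + 2 - dg H u) + 1 := by
            have := hdeg u
            omega
          have h2 := hf1v u hr hu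
          rw [h1] at h2
          obtain ⟨t, ht, hIn⟩ := h2
          exact ⟨t, ht, fun _ => hIn, fun h => absurd h hu⟩
      obtain ⟨f2, hf2, hf2v, hf20⟩ := ih (H.deleteEdges {s(u, w)}) hn' hdeg' w t ht (by
        have := hdeg w
        omega)
      obtain ⟨f, hf, hfu, hfw, hfl, hfr⟩ := glue H u w huw hb t ht f1 f2 hf1 hf2
      refine ⟨f, hf, ?_, ?_⟩
      · intro v hv hne
        by_cases hvu : v = u
        · rw [hvu, hfu]
          exact htu (by rw [← hvu]; exact hne)
        by_cases hvw : v = w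
        · rw [hvw, hfw]
          have h1 : m + 2 - dg (H.deleteEdges {s(u, w)}) w - 1 = m + 2 - dg H w := by
            have := hdeg w
            omega
          rw [← h1]
          exact hf20
        have hdv := dg_del_of_ne H u w v hvu hvw
        by_cases hside : (H.deleteEdges {s(u, w)}).Reachable u v
        · rw [hfl v hvu hvw hside, ← hdv]
          exact hf1v v (hr.trans hside) hne
        · rw [hfr v hvu hvw hside, ← hdv]
          have := reach_side' H u w v0 v hv hr
          rcases this with h | h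
          · exact absurd (hr.symm.trans h) hside
          · exact hf2v v h hvw
      · by_cases hu : u = v0
        · rw [← hu, hfu]
          exact htu0 hu
        · have hdv := dg_del_of_ne H u w v0 (Ne.symm hu) (Ne.symm hwv0)
          rw [hfl v0 (Ne.symm hu) (Ne.symm hwv0) hr.symm, ← hdv]
          exact hf10

/-- the statement for the component of `v0` -/
theorem main_comp (m : ℕ) (hm : 3 ≤ m) (h3 : (m + 2) % 3 ≠ 0) (H : SimpleGraph V)
    (hdeg : ∀ v, dg H v ≤ m + 2) (v0 : V) :
    ∃ f, Ok H f ∧ (∀ v, H.Reachable v0 v → InA (m + 2 - dg H v) (sm H f v)) := by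
  by_cases hno : ∀ u w, H.Adj u w → H.Reachable v0 u → (H.deleteEdges {s(u, w)}).Reachable u w
  · exact (no_bridge_at H m hm h3 hdeg v0 hno).2
  · obtain ⟨u, w, huw, hr, hb⟩ := bridge_choice H v0 hno
    have hdeg' : ∀ v, dg (H.deleteEdges {s(u, w)}) v ≤ m + 2 :=
      fun v => le_trans (dg_del_le H u w v) (hdeg v)
    have hdu := dg_del_left H u w huw
    have hdw := dg_del_right H u w huw
    have hL : Lab 2 := Or.inl rfl
    have hdegu := hdeg u
    have hdegw := hdeg w
    obtain ⟨f1, hf1, hf1v, hf10⟩ := main_at m hm h3 _ (H.deleteEdges {s(u, w)}) le_rfl hdeg' u 2 hL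
      (by omega)
    obtain ⟨f2, hf2, hf2v, hf20⟩ := main_at m hm h3 _ (H.deleteEdges {s(u, w)}) le_rfl hdeg' w 2 hL
      (by omega)
    obtain ⟨f, hf, hfu, hfw, hfl, hfr⟩ := glue H u w huw hb 2 hL f1 f2 hf1 hf2
    refine ⟨f, hf, ?_⟩
    intro v hv
    by_cases hvu : v = u
    · rw [hvu, hfu]
      have h1 : m + 2 - dg (H.deleteEdges {s(u, w)}) u - 1 = m + 2 - dg H u := by omega
      rw [← h1]
      exact hf10
    by_cases hvw : v = w
    · rw [hvw, hfw]
      have h1 : m + 2 - dg (H.deleteEdges {s(u, w)}) w - 1 = m + 2 - dg H w := by omega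
      rw [← h1]
      exact hf20
    have hdv := dg_del_of_ne H u w v hvu hvw
    by_cases hside : (H.deleteEdges {s(u, w)}).Reachable u v
    · rw [hfl v hvu hvw hside, ← hdv]
      exact hf1v v hside hvu
    · rw [hfr v hvu hvw hside, ← hdv]
      have := reach_side' H u w v0 v hv hr
      rcases this with h | h
      · exact absurd (hr.symm.trans h) hside
      · exact hf2v v h hvw

/-- regular graphs of degree `r ≥ 5`, `3 ∤ r` -/
theorem main_reg (m : ℕ) (hm : 3 ≤ m) (h3 : (m + 2) % 3 ≠ 0) (G : SimpleGraph V)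
    (hdeg : ∀ v, dg G v = m + 2) : ∃ f, Ok G f ∧ ∀ v, sm G f v = 0 := by
  have hall : ∀ v0 : V, ∃ f, Ok G f ∧ (∀ v, G.Reachable v0 v → sm G f v = 0) := by
    intro v0
    obtain ⟨f, hf, hfv⟩ := main_comp m hm h3 G (fun v => (hdeg v).le) v0
    refine ⟨f, hf, fun v hv => ?_⟩
    have := hfv v hv
    rw [hdeg v, Nat.sub_self] at this
    exact this
  choose F hF hFv using hall
  have key : ∀ v w, G.Adj v w →
      (G.connectedComponentMk (s(v, w) : Sym2 V).out.1).out =
        (G.connectedComponentMk v).out := by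
    intro v w hvw
    have h1 : (s(v, w) : Sym2 V).out.1 ∈ (s(v, w) : Sym2 V) := Sym2.out_fst_mem _
    rw [Sym2.mem_iff] at h1
    rcases h1 with h1 | h1
    · rw [h1]
    · rw [h1]
      congr 1
      exact ConnectedComponent.sound hvw.symm.reachable
  refine ⟨fun e => F (G.connectedComponentMk e.out.1).out e, ?_, ?_⟩
  · intro v w hvw
    beta_reduce
    rw [key v w hvw]
    exact hF _ v w hvw
  · intro v
    have h1 : sm G (fun e => F (G.connectedComponentMk e.out.1).out e) v =
        sm G (F (G.connectedComponentMk v).out) v := by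
      apply sm_congr
      intro w hvw
      rw [key v w hvw]
    rw [h1]
    apply hFv
    have : G.connectedComponentMk (G.connectedComponentMk v).out = G.connectedComponentMk v :=
      Quot.out_eq _
    exact ConnectedComponent.exact this

end Pool.Agent.H150R2.ZSF
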