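import Pool.Agent.H150R2.DataEx

/-!
The labelling of a bridgeless block.
-/

namespace Pool.Agent.H150R2.ZSF

open Finset SimpleGraph
open scoped Classical

set_option linter.unusedSectionVars false

variable {V : Type*} [Fintype V] (H : SimpleGraph V) (m : ℕ)

/-- the label of a pair -/
noncomputable def lbl (ρ : Fin 2 ⊕ Fin m → Equiv.Perm V) (c : Fin 2 ⊕ Fin m → ℤ) : Sym2 V → ℤ :=
  Sym2.lift ⟨fun v w => (∑ i, if ρ i v = w then c i else 0) + (∑ i, if ρ i w = v then c i else 0),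
    fun _ _ => add_comm _ _⟩

theorem lbl_mk (ρ : Fin 2 ⊕ Fin m → Equiv.Perm V) (c : Fin 2 ⊕ Fin m → ℤ) (v w : V) :
    lbl m ρ c s(v, w) = (∑ i, if ρ i v = w then c i else 0) + (∑ i, if ρ i w = v then c i else 0) :=
  rfl

theorem lbl_adj (ρ : Fin 2 ⊕ Fin m → Equiv.Perm V) (c : Fin 2 ⊕ Fin m → ℤ)
    (hD : Data H m ρ) (hc : Legal c) (v w : V) (h : H.Adj v w) :
    lbl m ρ c s(v, w) ≠ 0 ∧ |lbl m ρ c s(v, w)| < 5 := by
  obtain ⟨_, h2, _⟩ := hD
  obtain ⟨_, c2, c3, c4⟩ := hc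
  have key : ∀ a b : ℤ, (a = 1 ∨ a = -1 ∨ a = 2 ∨ a = -2) → (b = 1 ∨ b = -1 ∨ b = 2 ∨ b = -2) →
      |a + b| < 5 := by
    intro a b ha hb
    rcases ha with ha | ha | ha | ha <;> rcases hb with hb | hb | hb | hb <;> subst ha <;> subst hb <;>
      decide
  rw [lbl_mk]
  rcases h2 v w h with ⟨i0, i1, h0, h1⟩ | ⟨i0, i1, h0, h1⟩
  · have e1 : (∑ i, if ρ i v = w then c i else 0) = c (Sum.inl i0) := by
      simp only [h0]
      rw [Finset.sum_ite_eq' univ (Sum.inl i0) c, if_pos (Finset.mem_univ _)]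
    have e2 : (∑ i, if ρ i w = v then c i else 0) = c (Sum.inl i1) := by
      simp only [h1]
      rw [Finset.sum_ite_eq' univ (Sum.inl i1) c, if_pos (Finset.mem_univ _)]
    rw [e1, e2]
    exact ⟨c3 i0 i1, key _ _ (c2 _) (c2 _)⟩
  · have e1 : (∑ i, if ρ i v = w then c i else 0) = c (Sum.inr i0) := by
      simp only [h0]
      rw [Finset.sum_ite_eq' univ (Sum.inr i0) c, if_pos (Finset.mem_univ _)]
    have e2 : (∑ i, if ρ i w = v then c i else 0) = c (Sum.inr i1) := by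
      simp only [h1]
      rw [Finset.sum_ite_eq' univ (Sum.inr i1) c, if_pos (Finset.mem_univ _)]
    rw [e1, e2]
    exact ⟨c4 i0 i1, key _ _ (c2 _) (c2 _)⟩

theorem lbl_total (ρ : Fin 2 ⊕ Fin m → Equiv.Perm V) (c : Fin 2 ⊕ Fin m → ℤ)
    (hc : ∑ i, c i = 0) (v : V) : ∑ w, lbl m ρ c s(v, w) = 0 := by
  simp only [lbl_mk]
  rw [Finset.sum_add_distrib, Finset.sum_comm]
  have e1 : ∑ y, ∑ x, (if ρ y v = x then c y else 0) = ∑ y, c y := by
    apply Finset.sum_congr rfl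
    intro y _
    rw [Finset.sum_ite_eq, if_pos (Finset.mem_univ _)]
  have e2 : ∑ x, ∑ i, (if ρ i x = v then c i else 0) = ∑ y, c y := by
    rw [Finset.sum_comm]
    apply Finset.sum_congr rfl
    intro y _
    have : ∀ x, (ρ y x = v ↔ x = (ρ y).symm v) := by
      intro x
      constructor
      · intro h; rw [← h]; simp
      · intro h; rw [h]; simp
    simp only [this]
    rw [Finset.sum_ite_eq' univ ((ρ y).symm v) (fun _ => c y), if_pos (Finset.mem_univ _)]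
  rw [e1, e2, hc]
  norm_num

theorem lbl_sm (ρ : Fin 2 ⊕ Fin m → Equiv.Perm V) (c : Fin 2 ⊕ Fin m → ℤ)
    (hD : Data H m ρ) (hc : ∑ i, c i = 0) (v : V) :
    sm H (lbl m ρ c) v = -(∑ i ∈ univ.filter (fun i => ρ i v = v), 2 * c i) := by
  obtain ⟨h1, _, _⟩ := hD
  have htot := lbl_total m ρ c hc v
  have hv : lbl m ρ c s(v, v) = ∑ i ∈ univ.filter (fun i => ρ i v = v), 2 * c i := by
    rw [lbl_mk, Finset.sum_filter, ← Finset.sum_add_distrib]
    apply Finset.sum_congr rfl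
    intro i _
    by_cases h : ρ i v = v
    · simp only [h, if_true]; ring
    · simp only [h, if_false]; norm_num
  rw [← hv]
  have hsplit : ∑ w, lbl m ρ c s(v, w) =
      ∑ w ∈ univ.filter (fun w => H.Adj v w), lbl m ρ c s(v, w) +
      ∑ w ∈ univ.filter (fun w => ¬ H.Adj v w), lbl m ρ c s(v, w) :=
    (Finset.sum_filter_add_sum_filter_not univ (fun w => H.Adj v w) _).symm
  have hrest : ∑ w ∈ univ.filter (fun w => ¬ H.Adj v w), lbl m ρ c s(v, w) = lbl m ρ c s(v, v) := by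
    apply Finset.sum_eq_single
    · intro w hw hwv
      simp only [Finset.mem_filter, Finset.mem_univ, true_and] at hw
      rw [lbl_mk]
      have e1 : (∑ i, if ρ i v = w then c i else 0) = 0 := by
        apply Finset.sum_eq_zero
        intro i _
        rw [if_neg (h1 v w (Ne.symm hwv) hw i)]
      have e2 : (∑ i, if ρ i w = v then c i else 0) = 0 := by
        apply Finset.sum_eq_zero
        intro i _
        rw [if_neg (h1 w v hwv (fun h => hw h.symm) i)]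
      rw [e1, e2, add_zero]
    · intro h
      exfalso
      apply h
      simp
  rw [sm]
  linarith

theorem lab_two_mul {a : ℤ} (h : a = 1 ∨ a = -1 ∨ a = 2 ∨ a = -2) : Lab (2 * a) := by
  rcases h with h | h | h | h <;> subst h <;> simp [Lab]

theorem card_fixed (ρ : Fin 2 ⊕ Fin m → Equiv.Perm V) (hD : Data H m ρ) (v : V) :
    (univ.filter (fun i => ρ i v = v)).card = m + 2 - dg H v := by
  have := hD.2.2 v
  omega

theorem lbl_inA (ρ : Fin 2 ⊕ Fin m → Equiv.Perm V) (c : Fin 2 ⊕ Fin m → ℤ)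
    (hD : Data H m ρ) (hc : Legal c) (v : V) :
    InA (m + 2 - dg H v) (sm H (lbl m ρ c) v) := by
  rw [lbl_sm H m ρ c hD hc.1 v, ← card_fixed H m ρ hD v]
  exact inA_sum _ _ (fun i _ => lab_two_mul (hc.2.1 i))

/-- the block lemma, with a prescribed label on a semi-edge at `v0` -/
theorem block_at (hm : 3 ≤ m) (h3 : (m + 2) % 3 ≠ 0) (hdeg : ∀ v, dg H v ≤ m + 2)
    (hBL : ∀ A : V → Prop,
      (univ.filter (fun p : V × V => H.Adj p.1 p.2 ∧ A p.1 ∧ ¬ A p.2)).card ≠ 1)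
    (v0 : V) (s : ℤ) (hs : Lab s) (hv0 : dg H v0 < m + 2)
    (hP : ∀ A : V → Prop, (∀ v w, H.Adj v w → A v → A w) →
      (∑ v, if A v then m + 2 - dg H v else 0) = 1 → A v0) :
    ∃ f : Sym2 V → ℤ, (∀ v w, H.Adj v w → f s(v, w) ≠ 0 ∧ |f s(v, w)| < 5) ∧
      (∀ v, v ≠ v0 → InA (m + 2 - dg H v) (sm H f v)) ∧
      InA (m + 2 - dg H v0 - 1) (sm H f v0 + s) := by
  obtain ⟨ρ, hD⟩ := exists_data H m hm hdeg hBL v0 hP
  have hcard := card_fixed H m ρ hD v0
  obtain ⟨i0, hi0⟩ : (univ.filter (fun i => ρ i v0 = v0)).Nonempty := by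
    rw [← Finset.card_pos, hcard]
    omega
  obtain ⟨a, ha, has⟩ : ∃ a : ℤ, (a = 1 ∨ a = -1 ∨ a = 2 ∨ a = -2) ∧ s = 2 * a := by
    rcases hs with hs | hs | hs | hs
    · exact ⟨1, by norm_num, by rw [hs]; norm_num⟩
    · exact ⟨-1, by norm_num, by rw [hs]; norm_num⟩
    · exact ⟨2, by norm_num, by rw [hs]; norm_num⟩
    · exact ⟨-2, by norm_num, by rw [hs]; norm_num⟩
  obtain ⟨c, hc, hca⟩ := exists_legal hm h3 i0 a ha
  refine ⟨lbl m ρ c, fun v w h => lbl_adj H m ρ c hD hc v w h, fun v _ => lbl_inA H m ρ c hD hc v, ?_⟩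
  rw [lbl_sm H m ρ c hD hc.1 v0, ← hcard, ← Finset.card_erase_of_mem hi0]
  have : -(∑ i ∈ univ.filter (fun i => ρ i v0 = v0), 2 * c i) + s =
      -(∑ i ∈ (univ.filter (fun i => ρ i v0 = v0)).erase i0, 2 * c i) := by
    rw [← Finset.add_sum_erase _ _ hi0, hca, has]
    ring
  rw [this]
  exact inA_sum _ _ (fun i _ => lab_two_mul (hc.2.1 i))

/-- the block lemma -/
theorem block_free (hm : 3 ≤ m) (h3 : (m + 2) % 3 ≠ 0) (hdeg : ∀ v, dg H v ≤ m + 2)
    (hBL : ∀ A : V → Prop,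
      (univ.filter (fun p : V × V => H.Adj p.1 p.2 ∧ A p.1 ∧ ¬ A p.2)).card ≠ 1)
    (v0 : V)
    (hP : ∀ A : V → Prop, (∀ v w, H.Adj v w → A v → A w) →
      (∑ v, if A v then m + 2 - dg H v else 0) = 1 → A v0) :
    ∃ f : Sym2 V → ℤ, (∀ v w, H.Adj v w → f s(v, w) ≠ 0 ∧ |f s(v, w)| < 5) ∧
      (∀ v, InA (m + 2 - dg H v) (sm H f v)) := by
  obtain ⟨ρ, hD⟩ := exists_data H m hm hdeg hBL v0 hP
  obtain ⟨c, hc, _⟩ := exists_legal hm h3 (Sum.inl 0) 1 (Or.inl rfl)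
  exact ⟨lbl m ρ c, fun v w h => lbl_adj H m ρ c hD hc v w h, fun v => lbl_inA H m ρ c hD hc v⟩

end Pool.Agent.H150R2.ZSF
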