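import Mathlib

/-!
A weighted sufficient condition for a perfect matching, derived from Tutte's theorem.
-/

namespace Pool.Agent.H150R2.ZSF

open Finset SimpleGraph

theorem sum_ite_le_two {α : Type*} (O : Finset α) (P : α → Prop) [DecidablePred P]
    (h : ∀ a ∈ O, ∀ b ∈ O, P a → P b → a = b) :
    ∑ c ∈ O, (if P c then 2 else 0) ≤ 2 := by
  rw [← Finset.sum_filter]
  have hc : (O.filter P).card ≤ 1 := by
    rw [Finset.card_le_one]
    intro a ha b hb
    rw [Finset.mem_filter] at ha hb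
    exact h a ha.1 b hb.1 ha.2 hb.2
  rw [Finset.sum_const, smul_eq_mul]
  exact le_trans (Nat.mul_le_mul_right 2 hc) (by norm_num)

theorem exists_pm {V : Type*} [Fintype V] (G : SimpleGraph V) (r : ℕ) (w : V → V → ℕ)
    (hsymm : ∀ a b, w a b = w b a)
    (hadj : ∀ a b, w a b ≠ 0 → G.Adj a b)
    (hdeg : ∀ a, ∑ b, w a b ≤ r)
    (Q1 Q2 : V → Prop)
    (hQ1 : ∀ a b, Q1 a → Q1 b → a ≠ b → G.Adj a b)
    (hQ2 : ∀ a b, Q2 a → Q2 b → a ≠ b → G.Adj a b)
    (hodd : ∀ C D : Finset V, Odd C.card → (∀ a, a ∈ D ↔ a ∉ C) →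
      r ≤ (∑ a ∈ C, ∑ b ∈ D, w a b) ∨
      ((∃ a ∈ C, Q1 a) ∧ r ≤ (∑ a ∈ C, ∑ b ∈ D, w a b) + 2) ∨
      ((∃ a ∈ C, Q2 a) ∧ r ≤ (∑ a ∈ C, ∑ b ∈ D, w a b) + 2))
    (hr : 4 < r) : ∃ M : G.Subgraph, M.IsPerfectMatching := by
  classical
  rw [tutte]
  intro u hu
  unfold IsTutteViolator at hu
  set H := ((⊤ : G.Subgraph).deleteVerts u).coe with hH
  let cs : H.ConnectedComponent → Finset V := fun c =>
    (c.supp.toFinite.toFinset).map ⟨Subtype.val, Subtype.val_injective⟩
  have hmem : ∀ c a, a ∈ cs c ↔ ∃ h : a ∈ ((⊤ : G.Subgraph).deleteVerts u).verts,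
      H.connectedComponentMk ⟨a, h⟩ = c := by
    intro c a
    simp only [cs, Finset.mem_map, Set.Finite.mem_toFinset, ConnectedComponent.mem_supp_iff,
      Function.Embedding.coeFn_mk]
    constructor
    · rintro ⟨x, hx, rfl⟩
      exact ⟨x.2, hx⟩
    · rintro ⟨h, hc⟩
      exact ⟨⟨a, h⟩, hc, rfl⟩
  have hverts : ∀ a, a ∈ ((⊤ : G.Subgraph).deleteVerts u).verts ↔ a ∉ u := by
    intro a; simp
  have hcard : ∀ c, (cs c).card = c.supp.ncard := by
    intro c
    simp only [cs, Finset.card_map]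
    rw [Set.ncard_eq_toFinset_card _ c.supp.toFinite]
  -- closure
  have hcl : ∀ c a b, a ∈ cs c → G.Adj a b → b ∉ u → b ∈ cs c := by
    intro c a b ha hab hb
    rw [hmem] at ha ⊢
    obtain ⟨h, hc⟩ := ha
    have hb' : b ∈ ((⊤ : G.Subgraph).deleteVerts u).verts := (hverts b).2 hb
    refine ⟨hb', ?_⟩
    rw [← hc]
    apply ConnectedComponent.sound
    apply Adj.reachable
    rw [hH, Subgraph.coe_adj]
    simp only [Subgraph.deleteVerts_adj, Subgraph.verts_top, Set.mem_univ, true_and,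
      Subgraph.top_adj]
    exact ⟨hb, ⟨(hverts a).1 h, hab.symm⟩⟩
  have hdisj : ∀ c c' a, a ∈ cs c → a ∈ cs c' → c = c' := by
    intro c c' a h1 h2
    rw [hmem] at h1 h2
    obtain ⟨_, h1⟩ := h1
    obtain ⟨_, h2⟩ := h2
    rw [← h1, ← h2]
  let O : Finset H.ConnectedComponent := (H.oddComponents.toFinite).toFinset
  have hO : O.card = H.oddComponents.ncard := (Set.ncard_eq_toFinset_card _ _).symm
  let U : Finset V := u.toFinite.toFinset
  have hU : U.card = u.ncard := (Set.ncard_eq_toFinset_card _ _).symm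
  let cut : H.ConnectedComponent → ℕ := fun c => ∑ a ∈ cs c, ∑ b ∈ (cs c)ᶜ, w a b
  let P1 : H.ConnectedComponent → Prop := fun c => ∃ a ∈ cs c, Q1 a
  let P2 : H.ConnectedComponent → Prop := fun c => ∃ a ∈ cs c, Q2 a
  have h1 : ∀ c ∈ O, r ≤ cut c + (if P1 c then 2 else 0) + (if P2 c then 2 else 0) := by
    intro c hc
    have hoc : Odd (cs c).card := by
      rw [hcard]
      simpa [O] using hc
    rcases hodd (cs c) (cs c)ᶜ hoc (by intro a; simp) with h | ⟨hq, h⟩ | ⟨hq, h⟩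
    · have : r ≤ cut c := h
      omega
    · have : r ≤ cut c + 2 := h
      rw [if_pos (show P1 c from hq)]
      omega
    · have : r ≤ cut c + 2 := h
      rw [if_pos (show P2 c from hq)]
      omega
  have hclq : ∀ (Q : V → Prop), (∀ a b, Q a → Q b → a ≠ b → G.Adj a b) →
      ∀ c ∈ O, ∀ c' ∈ O, (∃ a ∈ cs c, Q a) → (∃ a ∈ cs c', Q a) → c = c' := by
    intro Q hQ c _ c' _ ⟨a, ha, hqa⟩ ⟨b, hb, hqb⟩
    by_cases hab : a = b
    · subst hab; exact hdisj _ _ _ ha hb
    · have hbu : b ∉ u := by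
        rw [hmem] at hb
        exact (hverts b).1 hb.1
      have := hcl c a b ha (hQ a b hqa hqb hab) hbu
      exact hdisj _ _ _ this hb
  have h2 : ∑ c ∈ O, cut c ≤ r * U.card := by
    have e1 : ∀ c ∈ O, cut c ≤ ∑ a ∈ cs c, ∑ b ∈ U, w a b := by
      intro c _
      apply Finset.sum_le_sum
      intro a ha
      apply Finset.sum_le_sum_of_ne_zero
      intro b hb hw
      by_contra hbU
      have hbu : b ∉ u := fun h => hbU ((Set.Finite.mem_toFinset _).2 h)
      have := hcl c a b ha (hadj a b hw) hbu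
      simp at hb
      exact hb this
    calc ∑ c ∈ O, cut c ≤ ∑ c ∈ O, ∑ a ∈ cs c, ∑ b ∈ U, w a b := Finset.sum_le_sum e1
      _ = ∑ a ∈ O.biUnion cs, ∑ b ∈ U, w a b := by
          rw [Finset.sum_biUnion]
          intro c _ c' _ hne
          rw [Function.onFun, Finset.disjoint_left]
          intro a h1 h2
          exact hne (hdisj _ _ _ h1 h2)
      _ ≤ ∑ a, ∑ b ∈ U, w a b :=
          Finset.sum_le_sum_of_subset (Finset.subset_univ _)
      _ = ∑ b ∈ U, ∑ a, w b a := by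
          rw [Finset.sum_comm]
          apply Finset.sum_congr rfl
          intro b _
          apply Finset.sum_congr rfl
          intro a _
          exact hsymm _ _
      _ ≤ ∑ b ∈ U, r := Finset.sum_le_sum (fun b _ => hdeg b)
      _ = r * U.card := by rw [Finset.sum_const, smul_eq_mul, mul_comm]
  have h3 : r * O.card ≤ r * U.card + 2 + 2 := by
    calc r * O.card = ∑ c ∈ O, r := by rw [Finset.sum_const, smul_eq_mul, mul_comm]
      _ ≤ ∑ c ∈ O, (cut c + (if P1 c then 2 else 0) + (if P2 c then 2 else 0)) :=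
          Finset.sum_le_sum h1
      _ = ∑ c ∈ O, cut c + ∑ c ∈ O, (if P1 c then 2 else 0) + ∑ c ∈ O, (if P2 c then 2 else 0) := by
          rw [Finset.sum_add_distrib, Finset.sum_add_distrib]
      _ ≤ r * U.card + 2 + 2 := by
          have a1 := sum_ite_le_two O P1 (hclq Q1 hQ1)
          have a2 := sum_ite_le_two O P2 (hclq Q2 hQ2)
          omega
  have h4 : U.card + 1 ≤ O.card := by
    rw [hU, hO]; exact hu
  have h5 : r * (U.card + 1) ≤ r * O.card := Nat.mul_le_mul_left r h4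
  rw [mul_add] at h5
  omega

end Pool.Agent.H150R2.ZSF
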